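import Pool.Agent.NUSp.Cls
import Pool.Agent.NUGC.Spk

/-!
# The potentials of the spectators on the axis

On the axis (`η = 0`) the real parts of the potentials of `NUSp` are the potentials of the sources of
`NUGC`: half quantum at position `p l`: `pC (p - 1)`, `pD (p - 1)`; quantum: `lq (p - 1)`,
`lqg (p - 1)`; string `(w, w - l)`: the sums over `p`, `p - 1`.

* `wd_axis`: a word of blocks; `hp_axis`, `cp_axis`: members;
* `ekp`, `ekp_axis`: the elementary spectators `Ek` of `NUGC/Spk`;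
* `kG`, `psG`, `srcG`: the sources of the groups of `NUSp/Cls`; **`lin_grp`**: `linS (srcG ..) = Re gp`
  on the axis; `srcG_q`: charge.
-/

set_option autoImplicit false

open Complex Set Filter Topology

namespace NUSp

open NUO
open NUC43 (hs cz)
open NUMF (lq lqg)
open NUGC (pC pD Sr)

noncomputable section

variable {δ : ℝ} {w : ℂ}

lemma h8 (t y : ℝ) : NUMF.h t ((y + 8) * NUMF.l) = NUMF.h t (y * NUMF.l) := by
  rw [← NUMF.h_per t (y * NUMF.l)]
  congr 1
  ring

lemma h_neg8 (t y : ℝ) : NUMF.h t ((8 - y) * NUMF.l) = NUMF.h t (y * NUMF.l) :=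
  NUC43.h_rd (Or.inr rfl) t

/-- the block on the axis -/
theorem bk_axis (h : Away δ w) (hδ : 0 < δ) (k : ℤ) (t : ℝ) : (bk w k t).re =
    1 / 2 * (NUMF.h (t - w.im) ((3 - k + w.re / NUMF.l) * NUMF.l) - Real.log 2) := by
  have hl := ll_pos
  have h1 : |(t : ℂ).im| < δ * NUMF.l := by
    rw [Complex.ofReal_im, abs_zero]
    positivity
  have hne := NUMF.cosh_ne (wz_lt h k h1)
  have e1 : wz w k t = ((t - w.im : ℝ) : ℂ) + (yw w k : ℂ) * I := by
    unfold wz
    push_cast
    ring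
  have e2 : Complex.cosh (wz w k t) = Complex.cos (((-(yw w k) : ℝ) : ℂ) + ((t - w.im : ℝ) : ℂ) * I) := by
    rw [← Complex.cos_mul_I, e1]
    congr 1
    push_cast
    linear_combination ((yw w k : ℂ)) * Complex.I_mul_I
  rw [e2] at hne
  have h2 := NUMF.log_norm_cos hne
  have e3 : NUMF.h (t - w.im) (yw w k) =
      NUMF.h (t - w.im) ((3 - k + w.re / NUMF.l) * NUMF.l) := by
    unfold NUMF.h yw
    have h3 := cos_red 0 (((3 - k : ℤ) : ℝ) - (-(w.re / NUMF.l)))
    simp only [zero_add] at h3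
    rw [h3]
    congr 3
    push_cast
    ring
  unfold bk
  rw [Complex.log_re, e2, ← e3, ← NUMF.h_neg_right]
  linarith

/-- list of a word at the position `p l` -/
def ax (p : ℝ) (L : List (ℤ × ℝ)) : List (ℝ × ℝ) := L.map fun kc => (kc.2 / 2, 3 - kc.1 + p)

/-- **a word on the axis** -/
theorem wd_axis (h : Away δ w) (hδ : 0 < δ) (L : List (ℤ × ℝ)) (t : ℝ) :
    (wd L w t).re = hs (ax (w.re / NUMF.l) L) (t - w.im) - wq L / 2 * Real.log 2 := by
  induction L with
  | nil => simp [ax, hs]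
  | cons a L ih =>
    rw [wd_cons, Complex.add_re, Complex.re_ofReal_mul, ih, bk_axis h hδ, wq_cons]
    unfold ax hs
    rw [List.map_cons, List.map_cons, List.sum_cons]
    ring

/-! ### members -/

/-- potential of a half quantum at `w` on the axis: own species? -/
def axH (o : Bool) (p t : ℝ) : ℝ := if o then pC (p - 1) t else pD (p - 1) t

/-- potential of a constituent on the axis: own species?, string? -/
def axC (o ty : Bool) (p t : ℝ) : ℝ :=
  if o then (if ty then lq (p - 1) t + lq (p - 2) t else lq (p - 1) t)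
  else (if ty then lqg (p - 1) t + lqg (p - 2) t else lqg (p - 1) t)

/-- **half quantum on the axis** -/
theorem hp_axis (s : Bool) {x : Bool × ℂ} (h : Away δ x.2) (hδ : 0 < δ) (t : ℝ) :
    (hp s x t).re = axH (decide (s = x.1)) (x.2.re / NUMF.l) (t - x.2.im) := by
  unfold hp axH
  rw [wd_axis h hδ]
  set p := x.2.re / NUMF.l
  set u := t - x.2.im
  cases decide (s = x.1)
  · have a1 : NUMF.h u ((3 - ((-3 : ℤ) : ℝ) + p) * NUMF.l) = NUMF.h u ((1 - (p - 1)) * NUMF.l) := by
      rw [← h_neg8]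
      congr 2
      push_cast
      ring
    have a2 : NUMF.h u ((3 - ((3 : ℤ) : ℝ) + p) * NUMF.l) = NUMF.h u ((1 + (p - 1)) * NUMF.l) := by
      congr 2
      push_cast
      ring
    have a3 : NUMF.h u ((3 - ((4 : ℤ) : ℝ) + p) * NUMF.l) = NUMF.h u ((p - 1) * NUMF.l) := by
      congr 2
      push_cast
      ring
    simp only [hlt, ax, hs, pD, List.map_cons, List.map_nil, List.sum_cons, List.sum_nil, wq_cons,
      wq_nil, Bool.false_eq_true, if_false, a1, a2, a3]
    ring
  · have a1 : NUMF.h u ((3 - ((0 : ℤ) : ℝ) + p) * NUMF.l) = NUMF.h u ((4 - (p - 1)) * NUMF.l) := by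
      rw [← h_neg8]
      congr 2
      push_cast
      ring
    have a2 : NUMF.h u ((3 - ((-2 : ℤ) : ℝ) + p) * NUMF.l) = NUMF.h u ((2 - (p - 1)) * NUMF.l) := by
      rw [← h_neg8]
      congr 2
      push_cast
      ring
    have a3 : NUMF.h u ((3 - ((-1 : ℤ) : ℝ) + p) * NUMF.l) = NUMF.h u ((3 - (p - 1)) * NUMF.l) := by
      rw [← h_neg8]
      congr 2
      push_cast
      ring
    simp only [hlt, ax, hs, pC, List.map_cons, List.map_nil, List.sum_cons, List.sum_nil, wq_cons,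
      wq_nil, if_true, a1, a2, a3]
    ring

/-- **constituent on the axis** -/
theorem cp_axis (s : Bool) {x : Bool × Bool × ℂ} (h : Away δ x.2.2) (hδ : 0 < δ) (t : ℝ) :
    (cp s x t).re = axC (decide (s = x.1)) x.2.1 (x.2.2.re / NUMF.l) (t - x.2.2.im) := by
  unfold axC
  rw [cp_eq_wd, wd_axis h hδ]
  set p := x.2.2.re / NUMF.l
  set u := t - x.2.2.im
  have b : ∀ (k : ℤ) (y : ℝ), 3 - (k : ℝ) + p = y →
      NUMF.h u ((3 - (k : ℝ) + p) * NUMF.l) = NUMF.h u (y * NUMF.l) := fun k y e => by rw [e]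
  have c : ∀ (k : ℤ) (y : ℝ), 3 - (k : ℝ) + p = 8 - y →
      NUMF.h u ((3 - (k : ℝ) + p) * NUMF.l) = NUMF.h u (y * NUMF.l) := fun k y e => by rw [e, h_neg8]
  have d : ∀ (k : ℤ) (y : ℝ), 3 - (k : ℝ) + p = y + 8 →
      NUMF.h u ((3 - (k : ℝ) + p) * NUMF.l) = NUMF.h u (y * NUMF.l) := fun k y e => by rw [e, h8]
  have f : ∀ (y z : ℝ), y = 8 - z → NUMF.h u (y * NUMF.l) = NUMF.h u (z * NUMF.l) :=
    fun y z e => by rw [e, h_neg8]
  cases decide (s = x.1) <;> cases x.2.1
  · -- other, single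
    have a1 := b 4 (p - 1) (by push_cast; ring)
    have a2 := b 3 (p - 1 + 1) (by push_cast; ring)
    have a3 := d (-3) (p - 1 - 1) (by push_cast; ring)
    simp only [mlt, ax, hs, lqg, List.map_cons, List.map_nil, List.sum_cons, List.sum_nil, wq_cons,
      wq_nil, Bool.false_eq_true, if_false, a1, a2, a3]
    rw [show (p - 1 + 1) * NUMF.l = (p - 1) * NUMF.l + NUMF.l by ring,
      show (p - 1 - 1) * NUMF.l = (p - 1) * NUMF.l - NUMF.l by ring]
    ring
  · -- other, string
    have a1 := b 3 p (by push_cast; ring)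
    have a2 := d (-2) (p - 3) (by push_cast; ring)
    simp only [mlt, ax, hs, lqg, List.map_cons, List.map_nil, List.sum_cons, List.sum_nil, wq_cons,
      wq_nil, Bool.false_eq_true, if_false, if_true, a1, a2]
    rw [show (p - 1) * NUMF.l + NUMF.l = p * NUMF.l by ring,
      show (p - 1) * NUMF.l - NUMF.l = (p - 2) * NUMF.l by ring,
      show (p - 2) * NUMF.l + NUMF.l = (p - 1) * NUMF.l by ring,
      show (p - 2) * NUMF.l - NUMF.l = (p - 3) * NUMF.l by ring]
    ring
  · -- own, single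
    have a0 := c 0 (4 - (p - 1)) (by push_cast; ring)
    have a1 := b 2 (2 + (p - 1)) (by push_cast; ring)
    have a2 := c (-2) (2 - (p - 1)) (by push_cast; ring)
    have a3 := c 1 (5 - (p - 1)) (by push_cast; ring)
    have a4 := c (-1) (3 - (p - 1)) (by push_cast; ring)
    simp only [mlt, ax, hs, lq, NUMF.ro, List.map_cons, List.map_nil, List.sum_cons, List.sum_nil,
      wq_cons, wq_nil, Bool.false_eq_true, if_false, if_true, a0, a1, a2, a3, a4]
    ring
  · -- own, string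
    have a0 := c 0 (4 - (p - 1)) (by push_cast; ring)
    have a1 := c 1 (4 - (p - 2)) (by push_cast; ring)
    have a2 := c (-2) (2 - (p - 1)) (by push_cast; ring)
    have a3 := b 3 (2 + (p - 2)) (by push_cast; ring)
    have f1 := f (2 + (p - 1)) (5 - (p - 2)) (by ring)
    simp only [mlt, ax, hs, lq, NUMF.ro, List.map_cons, List.map_nil, List.sum_cons, List.sum_nil,
      wq_cons, wq_nil, if_true, a0, a1, a2, a3, f1]
    ring_nf

/-! ### elementary spectators -/

open NUGC (Ek linS chSr)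

/-- potential of the elementary spectator `k` of species `a` at `w` on the species `s` -/
def ekp (s a : Bool) (k : Ek) (w ζ : ℂ) : ℂ :=
  match k with
  | .h5 | .hm | .h1 | .hs => hp s (a, w) ζ
  | .q1 | .qs => cp s (a, false, w) ζ
  | .sr => cp s (a, true, w) ζ

/-- place of the elementary spectator -/
def ew (k : Ek) (τ : ℝ) : ℂ := NUP1.vl (k.ps * NUP1.l) τ

lemma ew_re (k : Ek) (τ : ℝ) : (ew k τ).re / NUMF.l = k.ps := by
  have hl := ll_pos
  unfold ew NUP1.vl
  rw [ll_eq]
  simp only [Complex.add_re, Complex.mul_re, Complex.ofReal_re, Complex.I_re, mul_zero,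
    Complex.ofReal_im, Complex.I_im, mul_one, sub_self, add_zero]
  field_simp

lemma ew_im (k : Ek) (τ : ℝ) : (ew k τ).im = τ := by
  unfold ew NUP1.vl
  simp

lemma vl_away {x : ℝ} (n : ℤ) (h1 : (n : ℝ) + 1 / 4 ≤ x) (h2 : x ≤ n + 3 / 4) (τ : ℝ) :
    Away (1 / 4) (NUP1.vl (x * NUP1.l) τ) := by
  have hl := ll_pos
  refine away_of (x := x) ?_ n h1 (by linarith)
  unfold NUP1.vl
  rw [ll_eq]
  simp

lemma ew_away (k : Ek) (τ : ℝ) : Away (1 / 4) (ew k τ) := by
  unfold ew
  cases k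
  · exact vl_away 1 (by norm_num [Ek.ps, Ek.x]) (by norm_num [Ek.ps, Ek.x]) τ
  · exact vl_away (-3) (by norm_num [Ek.ps, Ek.x]) (by norm_num [Ek.ps, Ek.x]) τ
  · exact vl_away 0 (by norm_num [Ek.ps, Ek.x]) (by norm_num [Ek.ps, Ek.x]) τ
  · exact vl_away 0 (by norm_num [Ek.ps, Ek.x]) (by norm_num [Ek.ps, Ek.x]) τ
  · exact vl_away 0 (by norm_num [Ek.ps, Ek.x]) (by norm_num [Ek.ps, Ek.x]) τ
  · exact vl_away 0 (by norm_num [Ek.ps, Ek.x]) (by norm_num [Ek.ps, Ek.x]) τ
  · exact vl_away (-2) (by norm_num [Ek.ps, Ek.x]) (by norm_num [Ek.ps, Ek.x]) τ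

/-- potential of the source -/
lemma src_p (a : Bool) (k : Ek) (τ : ℝ) (s : Bool) (u : ℝ) :
    (Ek.src a k τ).p s u = if decide (s = a) then k.pa u else k.pb u := by
  unfold Ek.src chSr Sr.p
  cases a <;> cases s <;> simp

/-- **an elementary spectator on the axis is its source** -/
theorem ekp_axis (s a : Bool) (k : Ek) (τ t : ℝ) :
    (ekp s a k (ew k τ) t).re = (Ek.src a k τ).p s (t - τ) := by
  have hA := ew_away k τ
  have hre := ew_re k τ
  have him := ew_im k τ
  have hH := hp_axis s (x := (a, ew k τ)) hA (by norm_num) t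
  have hS := cp_axis s (x := (a, false, ew k τ)) hA (by norm_num) t
  have hT := cp_axis s (x := (a, true, ew k τ)) hA (by norm_num) t
  simp only [hre, him] at hH hS hT
  rw [src_p]
  cases k
  · rw [show ekp s a .h5 (ew .h5 τ) t = hp s (a, ew .h5 τ) t from rfl, hH]
    unfold axH
    norm_num [Ek.ps, Ek.x, Ek.pa, Ek.pb]
  · rw [show ekp s a .hm (ew .hm τ) t = hp s (a, ew .hm τ) t from rfl, hH]
    unfold axH
    norm_num [Ek.ps, Ek.x, Ek.pa, Ek.pb]
  · rw [show ekp s a .h1 (ew .h1 τ) t = hp s (a, ew .h1 τ) t from rfl, hH]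
    unfold axH
    norm_num [Ek.ps, Ek.x, Ek.pa, Ek.pb]
  · rw [show ekp s a .hs (ew .hs τ) t = hp s (a, ew .hs τ) t from rfl, hH]
    unfold axH
    norm_num [Ek.ps, Ek.x, Ek.pa, Ek.pb]
  · rw [show ekp s a .q1 (ew .q1 τ) t = cp s (a, false, ew .q1 τ) t from rfl, hS]
    have e1 := NUGC.lq_neg (3 / 4)
    have e2 := NUGC.lqg_neg (3 / 4)
    unfold axC
    norm_num [Ek.ps, Ek.x, Ek.pa, Ek.pb, NUC43.pO, NUC43.pX, e1, e2]
  · rw [show ekp s a .qs (ew .qs τ) t = cp s (a, false, ew .qs τ) t from rfl, hS]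
    have e1 := NUGC.lq_neg (3 / 8)
    have e2 := NUGC.lqg_neg (3 / 8)
    unfold axC
    norm_num [Ek.ps, Ek.x, Ek.pa, Ek.pb, NUC43.pO, NUC43.pX, e1, e2]
  · rw [show ekp s a .sr (ew .sr τ) t = cp s (a, true, ew .sr τ) t from rfl, hT]
    have e1 := NUGC.lq_neg (19 / 8)
    have e2 := NUGC.lqg_neg (19 / 8)
    have e3 := NUGC.lq_neg (27 / 8)
    have e4 := NUGC.lqg_neg (27 / 8)
    unfold axC
    norm_num [Ek.ps, Ek.x, Ek.pa, Ek.pb, NUC43.pO, NUC43.pX, e1, e2, e3, e4]

/-! ### the groups -/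

/-- elementary spectators of a class: same species as the half quantum?, kind (`rt` only for the
class `.w`: `true` = the line `5/4`, `false` = the line `-11/4`) -/
def kG : Cl → Bool → List (Bool × Ek)
  | .w, true => [(true, .h5)]
  | .w, false => [(true, .hm)]
  | .p, _ => [(true, .hm), (false, .q1)]
  | .hs, _ => [(true, .hs), (false, .sr)]
  | .hp, _ => [(true, .hs), (false, .sr), (true, .qs)]
  | .d, _ => [(true, .hm), (false, .h1)]

/-- position of the half quantum -/
def psG : Cl → Bool → ℝ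
  | .w, true => 5 / 4
  | .w, false => -(11 / 4)
  | .p, _ => -(11 / 4)
  | .hs, _ => 5 / 8
  | .hp, _ => 5 / 8
  | .d, _ => -(11 / 4)

/-- place of the half quantum -/
def wG (c : Cl) (rt : Bool) (τ : ℝ) : ℂ := NUP1.vl (psG c rt * NUP1.l) τ

/-- species: same or other -/
def spo (σ o : Bool) : Bool := if o then σ else !σ

/-- the sources of a group -/
def srcG (c : Cl) (rt σ : Bool) (τ : ℝ) (i : Fin (kG c rt).length) : Sr :=
  Ek.src (spo σ ((kG c rt).get i).1) ((kG c rt).get i).2 τ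

lemma srcG_ok (c : Cl) (rt σ : Bool) (τ : ℝ) (i : Fin (kG c rt).length) : (srcG c rt σ τ i).Ok :=
  Ek.src_ok _ _ _

lemma srcG_t (c : Cl) (rt σ : Bool) (τ : ℝ) (i : Fin (kG c rt).length) : (srcG c rt σ τ i).t = τ := rfl

lemma kG_len (c : Cl) (rt : Bool) : (kG c rt).length ≤ 3 := by
  cases c <;> cases rt <;> simp [kG]

lemma wG_im (c : Cl) (rt : Bool) (τ : ℝ) : (wG c rt τ).im = τ := by
  unfold wG NUP1.vl
  simp

lemma wG_re (c : Cl) (rt : Bool) (τ : ℝ) : (wG c rt τ).re / NUMF.l = psG c rt := by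
  have hl := ll_pos
  unfold wG NUP1.vl
  rw [ll_eq]
  simp only [Complex.add_re, Complex.mul_re, Complex.ofReal_re, Complex.I_re, mul_zero,
    Complex.ofReal_im, Complex.I_im, mul_one, sub_self, add_zero]
  field_simp

lemma wG_away (c : Cl) (rt : Bool) (τ : ℝ) : Away (1 / 4) (wG c rt τ) := by
  unfold wG
  cases c <;> cases rt
  · exact vl_away (-3) (by norm_num [psG]) (by norm_num [psG]) τ
  · exact vl_away 1 (by norm_num [psG]) (by norm_num [psG]) τ
  · exact vl_away (-3) (by norm_num [psG]) (by norm_num [psG]) τ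
  · exact vl_away (-3) (by norm_num [psG]) (by norm_num [psG]) τ
  · exact vl_away 0 (by norm_num [psG]) (by norm_num [psG]) τ
  · exact vl_away 0 (by norm_num [psG]) (by norm_num [psG]) τ
  · exact vl_away 0 (by norm_num [psG]) (by norm_num [psG]) τ
  · exact vl_away 0 (by norm_num [psG]) (by norm_num [psG]) τ
  · exact vl_away (-3) (by norm_num [psG]) (by norm_num [psG]) τ
  · exact vl_away (-3) (by norm_num [psG]) (by norm_num [psG]) τ

/-- the range of the table of phases -/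
lemma wG_rg (c : Cl) (rt : Bool) (τ : ℝ) : rg c rt ((wG c rt τ).re / NUMF.l) := by
  rw [wG_re]
  cases c <;> cases rt <;> simp only [rg, psG] <;> norm_num

/-- sum over the sources of a group -/
lemma sum_srcG {M : Type*} [AddCommMonoid M] (F : Sr → M) (c : Cl) (rt σ : Bool) (τ : ℝ) :
    ∑ i, F (srcG c rt σ τ i) = ((kG c rt).map fun x => F (Ek.src (spo σ x.1) x.2 τ)).sum := by
  have h := Fin.sum_univ_fun_getElem (kG c rt) fun x => F (Ek.src (spo σ x.1) x.2 τ)
  rw [← h]
  rfl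

lemma vl_shift (x y τ : ℝ) : NUP1.vl (x * NUP1.l) τ + (y : ℂ) * NUMF.l = NUP1.vl ((x + y) * NUP1.l) τ := by
  unfold NUP1.vl
  rw [ll_eq]
  push_cast
  ring

/-- **the sources of a group: their potential is the real part on the axis** -/
theorem lin_grp (c : Cl) (rt σ : Bool) (τ : ℝ) (a : Bool) (t : ℝ) :
    linS (srcG c rt σ τ) a t = (gp a (grp c σ (wG c rt τ)) t).re := by
  have h1 : linS (srcG c rt σ τ) a t = ∑ i, (srcG c rt σ τ i).p a (t - τ) := rfl
  have h2 := sum_srcG (fun S => S.p a (t - τ)) c rt σ τ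
  have e3 : ∀ x : ℝ, NUP1.vl (x * NUP1.l) τ + 3 * NUMF.l = NUP1.vl ((x + 3) * NUP1.l) τ := by
    intro x
    have := vl_shift x 3 τ
    push_cast at this
    exact this
  have e2 : ∀ x : ℝ, NUP1.vl (x * NUP1.l) τ - 2 * NUMF.l = NUP1.vl ((x + -2) * NUP1.l) τ := by
    intro x
    have := vl_shift x (-2) τ
    push_cast at this
    rw [← this]
    ring
  rw [h1, h2]
  unfold gp wG
  cases c <;> cases rt <;>
    simp only [kG, grp, psG, List.map_cons, List.map_nil, List.sum_cons, List.sum_nil, add_zero,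
      ← ekp_axis, Complex.add_re, spo, if_true, Bool.false_eq_true, if_false, e2, e3,
      ekp, ew, Ek.ps, Ek.x]
  all_goals norm_num

/-- charge of a group -/
theorem srcG_q (c : Cl) (rt σ : Bool) (τ : ℝ) :
    ∑ i, NUC43.sg (srcG c rt σ τ i).a * (srcG c rt σ τ i).q = NUC43.sg σ * qc c / 2 := by
  rw [sum_srcG (fun S => NUC43.sg S.a * S.q) c rt σ τ]
  cases c <;> cases rt <;> cases σ <;> norm_num [kG, Ek.src, chSr, spo, NUC43.sg, Ek.q, qc]

end

end NUSp
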