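import Pool.Agent.NUSp.Cls

/-!
# The ends, the total potential of the spectators, the real part on a curve

* `th p q`: the rows `p`, `q` are counted half in each of the two species; `th` is the rest of the end
  factor `theta`: `theta_sq`; `th_re`: `Re th = 0` on the line `A` for `p = -l/2`, `q = l/2`;
  `th_ph`: phase `6 l`;
* `DD p q L s`: ends and a list of groups;
* `PotB.re_curve`, `PotB.dre_curve`: real part on the curve `t + i η t`.
-/

set_option autoImplicit false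

open Complex Set Filter Topology

namespace NUSp

open NUO

noncomputable section


/-! ### the real part on a curve -/

section curve

variable {b κ c τ : ℝ} {f f1 : ℂ → ℂ}

/-- imaginary part of the derivative on the strip -/
theorem im_f1 (h : PotB b κ c τ f f1) {z : ℂ} (hz : |z.im| < b) :
    |(f1 z).im| ≤ κ * Real.exp (-2 * |z.re - τ|) := by
  rcases le_total τ z.re with ht | ht
  · refine le_trans ?_ (h.tr z hz ht)
    have e : (f1 z - c).im = (f1 z).im := by simp
    rw [← e]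
    exact Complex.abs_im_le_norm _
  · refine le_trans ?_ (h.tl z hz ht)
    have e : (f1 z + c).im = (f1 z).im := by simp
    rw [← e]
    exact Complex.abs_im_le_norm _

/-- **the real part on a curve**: `|Re f (t + i y) - Re f t| ≤ κ |y| e^{-2|t - τ|}` -/
theorem re_curve (h : PotB b κ c τ f f1) {t y : ℝ} (hy : |y| < b) :
    |(f (t + y * I)).re - (f t).re| ≤ κ * |y| * Real.exp (-2 * |t - τ|) := by
  have hk := h.κ0
  -- `g x = Re f (t + i x y)`
  have hin : ∀ x ∈ Icc (0:ℝ) 1, |((t : ℂ) + (x * y : ℝ) * I).im| < b := by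
    intro x hx
    have e : ((t : ℂ) + (x * y : ℝ) * I).im = x * y := by simp
    rw [e, abs_mul, abs_of_nonneg hx.1]
    have := abs_nonneg y
    nlinarith [hx.2]
  have hd : ∀ x ∈ Icc (0:ℝ) 1, HasDerivWithinAt (fun x : ℝ => (f (t + (x * y : ℝ) * I)).re)
      (-(y * (f1 (t + (x * y : ℝ) * I)).im)) (Icc (0:ℝ) 1) x := by
    intro x hx
    have h1 := h.hd _ (hin x hx)
    have h2 : HasDerivAt (fun x : ℝ => (t : ℂ) + (x * y : ℝ) * I) (y * I) x := by
      have h3 : HasDerivAt (fun x : ℝ => ((x * y : ℝ) : ℂ)) (y : ℂ) x := by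
        have h4 : HasDerivAt (fun x : ℝ => x * y) y x := by
          simpa using (hasDerivAt_id x).mul_const y
        exact h4.ofReal_comp
      exact (h3.mul_const I).const_add _
    have h3 := h1.comp x h2
    have h4 := Complex.reCLM.hasFDerivAt.comp_hasDerivAt x h3
    have e : Complex.reCLM (f1 (t + (x * y : ℝ) * I) * (y * I)) = -(y * (f1 (t + (x * y : ℝ) * I)).im) := by
      rw [Complex.reCLM_apply, Complex.mul_re, Complex.mul_re, Complex.mul_im]
      simp
      ring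
    rw [e] at h4
    exact h4.hasDerivWithinAt
  have hb : ∀ x ∈ Ico (0:ℝ) 1, ‖-(y * (f1 (t + (x * y : ℝ) * I)).im)‖ ≤
      κ * |y| * Real.exp (-2 * |t - τ|) := by
    intro x hx
    have h1 := im_f1 h (hin x ⟨hx.1, hx.2.le⟩)
    have e : ((t : ℂ) + (x * y : ℝ) * I).re = t := by simp
    rw [e] at h1
    rw [norm_neg, Real.norm_eq_abs, abs_mul]
    calc |y| * |(f1 (t + (x * y : ℝ) * I)).im| ≤ |y| * (κ * Real.exp (-2 * |t - τ|)) := by gcongr
      _ = _ := by ring
  have h1 := norm_image_sub_le_of_norm_deriv_le_segment' hd hb 1 ⟨zero_le_one, le_rfl⟩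
  rw [Real.norm_eq_abs] at h1
  simpa using h1

/-- constant of `dre_curve` -/
def kc (κ c ρ : ℝ) : ℝ := (κ + 2 * |c|) * Real.exp 2 / ρ + κ

/-- **derivative of the real part along a curve** -/
theorem dre_curve (h : PotB b κ c τ f f1) {b' ρ : ℝ} (hρ : 0 < ρ) (hρ1 : ρ ≤ 1) (hbρ : b' + ρ < b)
    {η : ℝ → ℝ} {t η1 : ℝ} (hη : |η t| ≤ b') (hd : HasDerivAt η η1 t) :
    HasDerivAt (fun t : ℝ => (f (t + (η t : ℂ) * I)).re) (f1 (t + (η t : ℂ) * I) * (1 + η1 * I)).re t ∧
    |(f1 (t + (η t : ℂ) * I) * (1 + η1 * I)).re - (f1 t).re| ≤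
      kc κ c ρ * (|η t| + |η1|) * Real.exp (-2 * |t - τ|) := by
  have hk := h.κ0
  have hb' : 0 ≤ b' := (abs_nonneg _).trans hη
  have him : ((t : ℂ) + (η t : ℂ) * I).im = η t := by simp
  have hre : ((t : ℂ) + (η t : ℂ) * I).re = t := by simp
  constructor
  · have h1 := h.hd ((t : ℂ) + (η t : ℂ) * I) (by rw [him]; linarith)
    have h2 : HasDerivAt (fun t : ℝ => (t : ℂ) + (η t : ℂ) * I) (1 + η1 * I) t := by
      have h3 : HasDerivAt (fun t : ℝ => (t : ℂ)) 1 t := Complex.ofRealCLM.hasDerivAt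
      exact h3.add (hd.ofReal_comp.mul_const I)
    exact Complex.reCLM.hasFDerivAt.comp_hasDerivAt t (h1.comp t h2)
  · -- `f1 (t + i η) - f1 t`
    have hseg : ∀ x ∈ Icc (0:ℝ) 1, |((t : ℂ) + (x * η t : ℝ) * I).im| ≤ b' := by
      intro x hx
      have e : ((t : ℂ) + (x * η t : ℝ) * I).im = x * η t := by simp
      rw [e, abs_mul, abs_of_nonneg hx.1]
      have := abs_nonneg (η t)
      nlinarith [hx.2]
    have hf1 : ∀ z : ℂ, |z.im| < b → HasDerivAt f1 (iteratedDeriv 2 f z) z := by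
      intro z hz
      have h1 := h.hasDerivAt_iter 1 hz
      refine h1.congr_of_eventuallyEq ?_
      filter_upwards [(PotB.isOpen_strip b).mem_nhds hz] with w hw
      rw [iteratedDeriv_one, h.deriv_eq hw]
    have hdd : ∀ x ∈ Icc (0:ℝ) 1, HasDerivWithinAt (fun x : ℝ => f1 (t + (x * η t : ℝ) * I))
        (iteratedDeriv 2 f (t + (x * η t : ℝ) * I) * (η t * I)) (Icc (0:ℝ) 1) x := by
      intro x hx
      have h1 := hf1 _ (lt_of_le_of_lt (hseg x hx) (by linarith))
      have h2 : HasDerivAt (fun x : ℝ => (t : ℂ) + (x * η t : ℝ) * I) (η t * I) x := by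
        have h3 : HasDerivAt (fun x : ℝ => ((x * η t : ℝ) : ℂ)) (η t : ℂ) x := by
          have h4 : HasDerivAt (fun x : ℝ => x * η t) (η t) x := by
            simpa using (hasDerivAt_id x).mul_const (η t)
          exact h4.ofReal_comp
        exact (h3.mul_const I).const_add _
      exact (h1.comp x h2).hasDerivWithinAt
    have hbb : ∀ x ∈ Ico (0:ℝ) 1, ‖iteratedDeriv 2 f (t + (x * η t : ℝ) * I) * (η t * I)‖ ≤
        (κ + 2 * |c|) * Real.exp 2 / ρ * |η t| * Real.exp (-2 * |t - τ|) := by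
      intro x hx
      have h1 := h.iter_bound hρ hρ1 hbρ 0 (hseg x ⟨hx.1, hx.2.le⟩)
      have e : ((t : ℂ) + (x * η t : ℝ) * I).re = t := by simp
      rw [e] at h1
      simp only [zero_add, Nat.factorial_one, Nat.cast_one, one_mul, pow_one] at h1
      rw [norm_mul, norm_mul, Complex.norm_I, mul_one, Complex.norm_real, Real.norm_eq_abs]
      calc _ ≤ ((κ + 2 * |c|) * Real.exp 2 / ρ * Real.exp (-2 * |t - τ|)) * |η t| := by gcongr
        _ = _ := by ring
    have h1 := norm_image_sub_le_of_norm_deriv_le_segment' hdd hbb 1 ⟨zero_le_one, le_rfl⟩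
    simp only [one_mul, zero_mul, Complex.ofReal_zero, add_zero, sub_zero, mul_one] at h1
    -- the term with `η1`
    have h2 := im_f1 h (z := (t : ℂ) + (η t : ℂ) * I) (by rw [him]; linarith)
    rw [hre] at h2
    have e : (f1 (t + (η t : ℂ) * I) * (1 + η1 * I)).re - (f1 t).re =
        (f1 (t + (η t : ℂ) * I) - f1 t).re - η1 * (f1 (t + (η t : ℂ) * I)).im := by
      rw [Complex.mul_re, Complex.sub_re]
      simp
      ring
    rw [e]
    have h3 := Complex.abs_re_le_norm (f1 (t + (η t : ℂ) * I) - f1 t)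
    have h4 : |η1 * (f1 (t + (η t : ℂ) * I)).im| ≤ |η1| * (κ * Real.exp (-2 * |t - τ|)) := by
      rw [abs_mul]
      gcongr
    have h5 := abs_sub (f1 (t + (η t : ℂ) * I) - f1 t).re (η1 * (f1 (t + (η t : ℂ) * I)).im)
    have h6 : 0 ≤ (κ + 2 * |c|) * Real.exp 2 / ρ := by positivity
    have h7 := Real.exp_pos (-2 * |t - τ|)
    have h8 := abs_nonneg (η t)
    have h9 := abs_nonneg η1
    unfold kc
    calc _ ≤ (κ + 2 * |c|) * Real.exp 2 / ρ * |η t| * Real.exp (-2 * |t - τ|) +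
          |η1| * (κ * Real.exp (-2 * |t - τ|)) := by linarith
      _ ≤ _ := by
        have q1 : 0 ≤ (κ + 2 * |c|) * Real.exp 2 / ρ * |η1| * Real.exp (-2 * |t - τ|) := by positivity
        have q2 : 0 ≤ κ * |η t| * Real.exp (-2 * |t - τ|) := by positivity
        nlinarith

end curve

/-! ### the ends -/

/-- word of an end -/
def wth : List (ℤ × ℝ) := [(0, 1 / 2), (-2, -(1 / 2))]

/-- potential of the ends -/
def th (p q ζ : ℂ) : ℂ := wd wth p ζ + wd wth q ζ

/-- its derivative -/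
def th1 (p q ζ : ℂ) : ℂ := wd1 wth p ζ + wd1 wth q ζ

/-- the end factor -/
def theta (p q u : ℂ) : ℂ :=
  sin (u - p + 3 * NUP1.l) * sin (u - q + 3 * NUP1.l) /
    (sin (2 * NUP1.l + p - u) * sin (2 * NUP1.l + q - u))

/-- modulus of the factor of a pair of rows (one of each species) -/
def R1 (z : ℂ) : ℝ := ‖sin (z + 3 * NUP1.l)‖ ^ 2 / (‖sin z‖ * ‖sin (z - 2 * NUP1.l)‖)

variable {δ b : ℝ} {p q w ζ : ℂ}

lemma wq_wth : wq wth = 0 := by norm_num [wth, wq]

lemma wn_wth : wn wth = 1 := by norm_num [wth, wn]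

theorem potB_th (hb0 : 0 < b) (hb : b < δ * NUMF.l) (hp : Away δ p) (hq : Away δ q) (h : q.im = p.im) :
    PotB b (2 * kb δ b) 0 p.im (th p q) (th1 p q) := by
  have h1 := potB_wd hb0 hb hp wth
  have h2 := potB_wd hb0 hb hq wth
  rw [h] at h2
  have h3 := h1.add h2
  rw [wq_wth, wn_wth, add_zero] at h3
  have e : 1 * kb δ b + 1 * kb δ b = 2 * kb δ b := by ring
  rw [e] at h3
  exact h3

theorem asy_th (hb : b < δ * NUMF.l) (hp : Away δ p) (hq : Away δ q) (h : q.im = p.im) :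
    Asy b (2 * ka δ b) 0 0 (wph wth p + wph wth q) p.im (th p q) := by
  have h1 := asy_wd hb hp wth
  have h2 := asy_wd hb hq wth
  rw [h] at h2
  have h3 := h1.add h2
  rw [wq_wth, wn_wth] at h3
  simp only [zero_mul, neg_zero, add_zero] at h3
  have e : 1 * ka δ b + 1 * ka δ b = 2 * ka δ b := by ring
  rw [e] at h3
  exact h3

/-- the phase of an end is `3 l` -/
theorem wph_wth {p : ℂ} (h1 : -1 < p.re / NUMF.l) (h2 : p.re / NUMF.l < 1) : wph wth p = 3 * NUMF.l := by
  have a0 := yw_of p 0 0 (by push_cast; linarith) (by push_cast; linarith)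
  have a2 := yw_of p (-2) 1 (by push_cast; linarith) (by push_cast; linarith)
  push_cast at a0 a2
  unfold wth
  simp only [wph_cons, wph_nil, a0, a2]
  ring

theorem exp_th (hp : Away δ p) (hq : Away δ q) (hζ : |ζ.im| < δ * NUMF.l) :
    Real.exp (2 * (th p q ζ).re) =
      (‖sin (NUMF.l + I * ζ - p)‖ * ‖sin (NUMF.l + I * ζ - q)‖) /
        (‖sin (NUMF.l + I * ζ - p - 2 * NUP1.l)‖ * ‖sin (NUMF.l + I * ζ - q - 2 * NUP1.l)‖) := by
  have k : ∀ p : ℂ, Away δ p → Real.exp (2 * (wd wth p ζ).re) =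
      ‖sin (NUMF.l + I * ζ - p)‖ / ‖sin (NUMF.l + I * ζ - p - 2 * NUP1.l)‖ := by
    intro p hp
    have s0 : Real.exp (bk p 0 ζ).re = ‖sin (NUMF.l + I * ζ - p)‖ := by
      have := exp_bk hp 0 hζ
      simpa using this
    have s2 : Real.exp (bk p (-2) ζ).re = ‖sin (NUMF.l + I * ζ - p - 2 * NUP1.l)‖ := by
      have := exp_bk hp (-2) hζ
      rw [this]
      congr 2
      rw [ll_eq]
      push_cast
      ring
    rw [← s0, ← s2, ← Real.exp_sub]
    congr 1
    unfold wth
    simp only [wd_cons, wd_nil, add_zero, Complex.add_re, Complex.re_ofReal_mul]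
    ring
  unfold th
  rw [Complex.add_re, mul_add, Real.exp_add, k p hp, k q hq, div_mul_div_comm]

/-- **the end factor**: rows `p`, `q` counted half in both species and `exp 2 Re th` -/
theorem theta_sq (hp : Away δ p) (hq : Away δ q) (hζ : |ζ.im| < δ * NUMF.l) :
    ‖theta p q (NUMF.l + I * ζ)‖ ^ 2 =
      Real.exp (2 * (th p q ζ).re) * (R1 (NUMF.l + I * ζ - p) * R1 (NUMF.l + I * ζ - q)) := by
  rw [exp_th hp hq hζ]
  set u : ℂ := NUMF.l + I * ζ with hu
  have n0 : ∀ {p : ℂ}, Away δ p → 0 < ‖sin (u - p)‖ := by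
    intro p hp
    have := sin_pos' hp 0 hζ
    rw [← hu] at this
    simpa using this
  have n2 : ∀ {p : ℂ}, Away δ p → 0 < ‖sin (u - p - 2 * NUP1.l)‖ := by
    intro p hp
    have := sin_pos' hp (-2) hζ
    rw [← hu] at this
    have e : (u - p + ((-2 : ℤ) : ℂ) * NUMF.l) = u - p - 2 * NUP1.l := by
      rw [ll_eq]
      push_cast
      ring
    rwa [e] at this
  have e2 : ∀ p : ℂ, ‖sin (2 * NUP1.l + p - u)‖ = ‖sin (u - p - 2 * NUP1.l)‖ := by
    intro p
    rw [← norm_neg, ← Complex.sin_neg]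
    congr 2
    ring
  unfold theta R1
  rw [norm_div, norm_mul, norm_mul, e2, e2]
  have := n0 hp
  have := n0 hq
  have := n2 hp
  have := n2 hq
  field_simp

/-- the first end `p = -l/2` and the second end `q = l/2` -/
theorem th_re {p q : ℂ} (hp : p.re = -(NUMF.l / 2)) (hq : q.re = NUMF.l / 2) (h : q.im = p.im) (t : ℝ) :
    (th p q t).re = 0 := by
  have hl := ll_pos
  have ap : Away (1 / 2) p := away_of (x := -(1 / 2)) (by rw [hp]; ring) (-1)
    (by norm_num) (by norm_num)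
  have aq : Away (1 / 2) q := away_of (x := 1 / 2) (by rw [hq]; ring) 0
    (by norm_num) (by norm_num)
  have h1 := exp_th (ζ := (t : ℂ)) ap aq (by simp only [Complex.ofReal_im, abs_zero]; positivity)
  have hc : ∀ x y : ℝ, ‖sin ((-x : ℝ) + (y : ℝ) * I)‖ = ‖sin ((x : ℝ) + (y : ℝ) * I)‖ := by
    intro x y
    have h2 := NUMF.norm_sin_sq (-x) y
    have h3 := NUMF.norm_sin_sq x y
    have e : (2:ℝ) * -x = -(2 * x) := by ring
    rw [e, Real.cos_neg, ← h3] at h2
    have h4 : ‖sin ((-x : ℝ) + (y : ℝ) * I)‖ ^ 2 = ‖sin ((x : ℝ) + (y : ℝ) * I)‖ ^ 2 := by linarith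
    exact (pow_left_inj₀ (norm_nonneg _) (norm_nonneg _) two_ne_zero).1 h4
  have e1 : (NUMF.l + I * (t : ℂ) - p : ℂ) = ((3 / 2 * NUMF.l : ℝ) : ℂ) + ((t - p.im : ℝ) : ℂ) * I := by
    apply Complex.ext
    · simp [hp]; ring
    · simp
  have e2 : (NUMF.l + I * (t : ℂ) - q - 2 * NUP1.l : ℂ) =
      ((-(3 / 2 * NUMF.l) : ℝ) : ℂ) + ((t - p.im : ℝ) : ℂ) * I := by
    rw [ll_eq]
    apply Complex.ext
    · simp [hq]; ring
    · simp [h]
  have e3 : (NUMF.l + I * (t : ℂ) - q : ℂ) = ((1 / 2 * NUMF.l : ℝ) : ℂ) + ((t - p.im : ℝ) : ℂ) * I := by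
    apply Complex.ext
    · simp [hq]; ring
    · simp [h]
  have e4 : (NUMF.l + I * (t : ℂ) - p - 2 * NUP1.l : ℂ) =
      ((-(1 / 2 * NUMF.l) : ℝ) : ℂ) + ((t - p.im : ℝ) : ℂ) * I := by
    rw [ll_eq]
    apply Complex.ext
    · simp [hp]; ring
    · simp
  have n1 := sin_pos' (ζ := (t : ℂ)) ap 0 (by simp only [Complex.ofReal_im, abs_zero]; positivity)
  have n3 := sin_pos' (ζ := (t : ℂ)) aq 0 (by simp only [Complex.ofReal_im, abs_zero]; positivity)
  simp only [Int.cast_zero, zero_mul, add_zero] at n1 n3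
  rw [e2, e4, hc, hc, ← e1, ← e3, mul_comm ‖sin (NUMF.l + I * (t : ℂ) - q)‖, div_self (by positivity)] at h1
  have h5 : 2 * (th p q t).re = 0 := by
    have := congrArg Real.log h1
    rwa [Real.log_exp, Real.log_one] at this
  linarith

/-! ### the total potential -/

/-- ends and a list of groups -/
def DD (p q : ℂ) (L : List Grp) (s : Bool) (ζ : ℂ) : ℂ := th p q ζ + (L.map fun G => gp s G ζ).sum

/-- its derivative -/
def DD1 (p q : ℂ) (L : List Grp) (s : Bool) (ζ : ℂ) : ℂ := th1 p q ζ + (L.map fun G => gp1 s G ζ).sum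

/-- exactness -/
theorem exp_DD (hp : Away δ p) (hq : Away δ q) {L : List Grp} (hL : ∀ G ∈ L, ∃ τ, G.Ok δ τ) (s : Bool)
    (hζ : |ζ.im| < δ * NUMF.l) :
    Real.exp (DD p q L s ζ).re * Real.sqrt (R1 (NUMF.l + I * ζ - p) * R1 (NUMF.l + I * ζ - q)) =
      ‖theta p q (NUMF.l + I * ζ)‖ * (L.map fun G => specN (s, false, NUMF.l + I * ζ) G).prod := by
  have h1 := theta_sq hp hq hζ
  have hR : 0 ≤ R1 (NUMF.l + I * ζ - p) * R1 (NUMF.l + I * ζ - q) := by unfold R1; positivity
  have h2 : ‖theta p q (NUMF.l + I * ζ)‖ =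
      Real.exp (th p q ζ).re * Real.sqrt (R1 (NUMF.l + I * ζ - p) * R1 (NUMF.l + I * ζ - q)) := by
    refine (pow_left_inj₀ (norm_nonneg _) (by positivity) two_ne_zero).1 ?_
    rw [h1, mul_pow, Real.sq_sqrt hR, exp_two]
  have h3 : ∀ L : List Grp, (∀ G ∈ L, ∃ τ, G.Ok δ τ) →
      Real.exp ((L.map fun G => gp s G ζ).sum).re = (L.map fun G => specN (s, false, NUMF.l + I * ζ) G).prod := by
    intro L hL
    induction L with
    | nil => simp
    | cons a L ih =>
      obtain ⟨τ, ha⟩ := hL a (by simp)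
      rw [List.map_cons, List.sum_cons, List.map_cons, List.prod_cons, Complex.add_re, Real.exp_add,
        ih fun x hx => hL x (by simp [hx]), exp_gp s ha hζ]
  rw [h2, ← h3 L hL]
  unfold DD
  rw [Complex.add_re, Real.exp_add]
  ring

theorem hasDerivAt_DD (hb0 : 0 < b) (hb : b < δ * NUMF.l) (hp : Away δ p) (hq : Away δ q)
    (h : q.im = p.im) {L : List Grp} (hL : ∀ G ∈ L, ∃ τ, G.Ok δ τ) (s : Bool) {z : ℂ} (hz : |z.im| < b) :
    HasDerivAt (DD p q L s) (DD1 p q L s z) z := by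
  have h1 := (potB_th hb0 hb hp hq h).hd z hz
  have h2 : ∀ L : List Grp, (∀ G ∈ L, ∃ τ, G.Ok δ τ) →
      HasDerivAt (fun z => (L.map fun G => gp s G z).sum) (L.map fun G => gp1 s G z).sum z := by
    intro L hL
    induction L with
    | nil => simpa using hasDerivAt_const z (0:ℂ)
    | cons a L ih =>
      obtain ⟨τ, ha⟩ := hL a (by simp)
      have h3 := (potB_gp hb0 hb s ha).hd z hz
      simp only [List.map_cons, List.sum_cons]
      exact h3.add (ih fun x hx => hL x (by simp [hx]))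
  exact h1.add (h2 L hL)

/-- admissible sums -/
theorem Ext_add {b : ℝ} {F G : ℂ → ℂ} (h1 : NUAct.Ext b F) (h2 : NUAct.Ext b G) :
    NUAct.Ext b (fun z => F z + G z) := by
  obtain ⟨A, hA⟩ := h1.bd
  obtain ⟨B, hB⟩ := h2.bd
  refine ⟨fun z hz => (h1.diff z hz).add (h2.diff z hz), A + B, fun z hz => ?_⟩
  refine (norm_add_le _ _).trans ?_
  rw [add_mul]
  exact add_le_add (hA z hz) (hB z hz)

theorem ext_DD (hb0 : 0 < b) (hb : b < δ * NUMF.l) (hp : Away δ p) (hq : Away δ q)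
    (h : q.im = p.im) {L : List Grp} (hL : ∀ G ∈ L, ∃ τ, G.Ok δ τ) (s : Bool) {b' : ℝ} (hb' : b' < b) :
    NUAct.Ext b' (DD p q L s) := by
  have h1 := ext_of_potB (potB_th hb0 hb hp hq h) hb'
  have h2 : ∀ L : List Grp, (∀ G ∈ L, ∃ τ, G.Ok δ τ) →
      NUAct.Ext b' (fun z => (L.map fun G => gp s G z).sum) := by
    intro L hL
    induction L with
    | nil =>
      refine ⟨fun z _ => ?_, 0, fun z _ => by simp⟩
      simp
    | cons a L ih =>
      obtain ⟨τ, ha⟩ := hL a (by simp)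
      have h3 := ext_gp hb0 hb s ha hb'
      simpa using Ext_add h3 (ih fun x hx => hL x (by simp [hx]))
  exact Ext_add h1 (h2 L hL)

end

end NUSp
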