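import Pool.Agent.NUSp.Tot

/-!
# Pinned dressing of the half quanta beyond the window (82F 1. (a)-(d))

* `pin T τ`, `exc T τ`: `τ` clipped to `[-T, T]` and the excess;
* `cmp_re`, `cmp_d`, `re_far`: two potentials with the same asymptotic data at the heights `τ` and
  `pin T τ`: inside `[-T, T]` they differ by the constant `c (exc T τ)` up to `O(e^{-2|t - pin|})`, beyond
  `T` by at most `2 c⁻ min (|t| - T) (exc T τ)` more;
* `rem`, `rem1`: the remainder on a curve, cut off beyond `T + 1`: `C¹`, exponentially small;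
* `pinw`, `gp_pin..`: the groups `grp c σ w` of the file `Cls`; `small_re`: neutral groups.
-/

set_option autoImplicit false

open Complex Set Filter Topology

namespace NUSp

open NUO

noncomputable section

/-! ### geometry -/

/-- pinned height -/
def pin (T τ : ℝ) : ℝ := max (-T) (min τ T)

/-- excess beyond `T` -/
def exc (T τ : ℝ) : ℝ := max (|τ| - T) 0

variable {T τ t : ℝ}

lemma exc_nonneg (T τ : ℝ) : 0 ≤ exc T τ := le_max_right _ _

lemma pin_of_le (h : |τ| ≤ T) : pin T τ = τ := by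
  obtain ⟨h1, h2⟩ := abs_le.1 h
  unfold pin
  rw [min_eq_left h2, max_eq_right h1]

lemma pin_of_ge (hT : 0 ≤ T) (h : T ≤ τ) : pin T τ = T := by
  unfold pin
  rw [min_eq_right h, max_eq_right (by linarith)]

lemma pin_of_le_neg (hT : 0 ≤ T) (h : τ ≤ -T) : pin T τ = -T := by
  unfold pin
  rw [min_eq_left (by linarith), max_eq_left h]

lemma abs_pin_le (hT : 0 ≤ T) (τ : ℝ) : |pin T τ| ≤ T := by
  unfold pin
  rw [abs_le]
  exact ⟨le_max_left _ _, max_le (by linarith) (min_le_right _ _)⟩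

lemma exc_of_le (h : |τ| ≤ T) : exc T τ = 0 := max_eq_right (by linarith)

lemma exc_of_ge (h : T ≤ |τ|) : exc T τ = |τ| - T := max_eq_left (by linarith)

lemma exc_eq (hT : 0 ≤ T) (τ : ℝ) : exc T τ = |τ| - |pin T τ| := by
  rcases le_total |τ| T with h | h
  · rw [exc_of_le h, pin_of_le h, sub_self]
  · rw [exc_of_ge h]
    rcases le_total 0 τ with h0 | h0
    · rw [abs_of_nonneg h0] at h
      rw [pin_of_ge hT h, abs_of_nonneg hT]
    · rw [abs_of_nonpos h0] at h
      rw [pin_of_le_neg hT (by linarith), abs_neg, abs_of_nonneg hT]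

/-- sign of the height -/
def sg (τ : ℝ) : ℝ := if 0 ≤ τ then 1 else -1

lemma sg_mul_le (τ t : ℝ) : sg τ * t ≤ |t| := by
  unfold sg
  split_ifs
  · rw [one_mul]; exact le_abs_self t
  · rw [neg_one_mul]; exact neg_le_abs t

lemma sg_sq (τ : ℝ) : sg τ * sg τ = 1 := by
  unfold sg
  split_ifs <;> norm_num

lemma sg_abs (τ : ℝ) : |sg τ| = 1 := by
  unfold sg
  split_ifs <;> simp

lemma eq_sg (τ : ℝ) : τ = sg τ * |τ| := by
  unfold sg
  split_ifs with h
  · rw [one_mul, abs_of_nonneg h]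
  · rw [abs_of_neg (not_le.1 h)]; ring

lemma pin_eq_sg (hT : 0 ≤ T) (h : T ≤ |τ|) : pin T τ = sg τ * T := by
  unfold sg
  split_ifs with h0
  · rw [abs_of_nonneg h0] at h
    rw [pin_of_ge hT h, one_mul]
  · rw [abs_of_neg (not_le.1 h0)] at h
    rw [pin_of_le_neg hT (by linarith), neg_one_mul]

lemma abs_sub_sg (τ t s : ℝ) : |t - sg τ * s| = |sg τ * t - s| := by
  have e : t - sg τ * s = sg τ * (sg τ * t - s) := by
    rw [mul_sub, ← mul_assoc, sg_sq, one_mul]
  rw [e, abs_mul, sg_abs, one_mul]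

/-- inside: the linear parts differ by the constant -/
lemma geo_in (hT : 0 ≤ T) (h : T ≤ |τ|) (ht : sg τ * t ≤ T) :
    |t - τ| - |t - pin T τ| = exc T τ := by
  rw [pin_eq_sg hT h, exc_of_ge h, abs_sub_sg]
  have e : |t - τ| = |sg τ * t - (|τ|)| := by
    conv_lhs => rw [eq_sg τ]
    exact abs_sub_sg τ t |τ|
  rw [e, abs_of_nonpos (a := sg τ * t - (|τ|)) (by linarith), abs_of_nonpos (a := sg τ * t - T) (by linarith)]
  ring

lemma geo_le (hT : 0 ≤ T) (τ t : ℝ) : |t - τ| - |t - pin T τ| ≤ exc T τ := by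
  rcases le_total |τ| T with h | h
  · rw [pin_of_le h, sub_self]
    exact exc_nonneg _ _
  · rw [pin_eq_sg hT h, exc_of_ge h, abs_sub_sg]
    have e : |t - τ| = |sg τ * t - (|τ|)| := by
      conv_lhs => rw [eq_sg τ]
      exact abs_sub_sg τ t |τ|
    rw [e]
    have h1 := abs_sub_le (sg τ * t) T |τ|
    have h2 : |T - (|τ|)| = |τ| - T := by rw [abs_of_nonpos (by linarith)]; ring
    linarith

lemma geo_ge (hT : 0 ≤ T) (τ t : ℝ) :
    exc T τ - 2 * min (max (|t| - T) 0) (exc T τ) ≤ |t - τ| - |t - pin T τ| := by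
  have h0 := exc_nonneg T τ
  rcases le_total |τ| T with h | h
  · rw [pin_of_le h, sub_self, exc_of_le h]
    have : 0 ≤ min (max (|t| - T) 0) (0:ℝ) := le_min (le_max_right _ _) le_rfl
    linarith
  · rcases le_total (sg τ * t) T with ht | ht
    · rw [geo_in hT h ht]
      have : 0 ≤ min (max (|t| - T) 0) (exc T τ) := le_min (le_max_right _ _) h0
      linarith
    · have e : |t - τ| = |sg τ * t - (|τ|)| := by
        conv_lhs => rw [eq_sg τ]
        exact abs_sub_sg τ t |τ|
      rw [pin_eq_sg hT h, abs_sub_sg, e, abs_of_nonneg (a := sg τ * t - T) (by linarith)]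
      have h1 : sg τ * t - T ≤ max (|t| - T) 0 := by
        have := sg_mul_le τ t
        have := le_max_left (|t| - T) 0
        linarith
      have h2 := exc_of_ge h
      rcases le_total (max (|t| - T) 0) (exc T τ) with h3 | h3
      · rw [min_eq_left h3]
        have := neg_abs_le (sg τ * t - |τ|)
        linarith
      · rw [min_eq_right h3]
        have h4 := neg_abs_le (sg τ * t - |τ|)
        have h5 := le_abs_self (sg τ * t - |τ|)
        linarith

/-! ### comparison of two potentials -/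

variable {b κ c a φ : ℝ} {f f1 g g1 : ℂ → ℂ}

/-- the real part of a potential off the axis -/
theorem re_le_z (h : Asy b κ c a φ τ f) {z : ℂ} (hz : |z.im| < b) :
    |(f z).re - (c * |z.re - τ| + a)| ≤ κ * Real.exp (-2 * |z.re - τ|) := by
  rcases le_total τ z.re with ht | ht
  · have h1 := h.ar z hz ht
    refine le_trans ?_ h1
    have e : (f z - (c * (z - τ) + a + φ * I)).re = (f z).re - (c * |z.re - τ| + a) := by
      rw [abs_of_nonneg (by linarith)]
      simp
    rw [← e]
    exact Complex.abs_re_le_norm _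
  · have h1 := h.al z hz ht
    refine le_trans ?_ h1
    have e : (f z - (-c * (z - τ) + a - φ * I)).re = (f z).re - (c * |z.re - τ| + a) := by
      rw [abs_of_nonpos (by linarith)]
      simp
      ring
    rw [← e]
    exact Complex.abs_re_le_norm _

theorem Asy.κ0 (h : Asy b κ c a φ τ f) (hb : 0 < b) : 0 ≤ κ := by
  have h1 := re_le_z (z := (τ : ℂ)) h (by simpa using hb)
  have h2 := abs_nonneg ((f (τ : ℂ)).re - (c * |(τ : ℂ).re - τ| + a))
  have h3 : Real.exp (-2 * |(τ : ℂ).re - τ|) = 1 := by simp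
  rw [h3, mul_one] at h1
  linarith

/-- **inside**: the difference is the constant `c (exc T τ)` up to an exponentially small term -/
theorem cmp_re (hb : 0 < b) (hf : Asy b κ c a φ τ f) (hg : Asy b κ c a φ (pin T τ) g) (hT : 0 ≤ T)
    (h : T ≤ |τ|) {z : ℂ} (hz : |z.im| < b) (ht : sg τ * z.re ≤ T) :
    |(f z).re - (g z).re - c * exc T τ| ≤ 2 * κ * Real.exp (-2 * |z.re - pin T τ|) := by
  have hk := hf.κ0 hb
  have h1 := re_le_z hf hz
  have h2 := re_le_z hg hz
  have h3 := geo_in hT h ht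
  have h0 := exc_nonneg T τ
  have h4 : Real.exp (-2 * |z.re - τ|) ≤ Real.exp (-2 * |z.re - pin T τ|) := by
    apply Real.exp_le_exp.2
    linarith
  have h5 : κ * Real.exp (-2 * |z.re - τ|) ≤ κ * Real.exp (-2 * |z.re - pin T τ|) :=
    mul_le_mul_of_nonneg_left h4 hk
  have e : (f z).re - (g z).re - c * exc T τ =
      ((f z).re - (c * |z.re - τ| + a)) - ((g z).re - (c * |z.re - pin T τ| + a)) := by
    rw [← h3]
    ring
  rw [e]
  have h6 := abs_sub ((f z).re - (c * |z.re - τ| + a)) ((g z).re - (c * |z.re - pin T τ| + a))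
  linarith

/-- **everywhere** -/
theorem cmp_re_all (hb : 0 < b) (hf : Asy b κ c a φ τ f) (hg : Asy b κ c a φ (pin T τ) g) (hT : 0 ≤ T)
    {z : ℂ} (hz : |z.im| < b) :
    |(f z).re - (g z).re - c * exc T τ| ≤
      2 * |c| * min (max (|z.re| - T) 0) (exc T τ) + 2 * κ := by
  have hk := hf.κ0 hb
  have h1 := re_le_z hf hz
  have h2 := re_le_z hg hz
  have h3 := geo_le hT τ z.re
  have h4 := geo_ge hT τ z.re
  have e1 : ∀ x : ℝ, κ * Real.exp (-2 * |x|) ≤ κ := by
    intro x
    have : Real.exp (-2 * |x|) ≤ 1 := Real.exp_le_one_iff.2 (by have := abs_nonneg x; linarith)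
    nlinarith
  have e : (f z).re - (g z).re - c * exc T τ =
      ((f z).re - (c * |z.re - τ| + a)) - ((g z).re - (c * |z.re - pin T τ| + a)) +
        c * ((|z.re - τ| - |z.re - pin T τ|) - exc T τ) := by
    ring
  rw [e]
  have h5 : |(|z.re - τ| - |z.re - pin T τ|) - exc T τ| ≤ 2 * min (max (|z.re| - T) 0) (exc T τ) := by
    rw [abs_le]
    have : 0 ≤ min (max (|z.re| - T) 0) (exc T τ) := le_min (le_max_right _ _) (exc_nonneg _ _)
    constructor <;> linarith
  have h6 := abs_add_le (((f z).re - (c * |z.re - τ| + a)) - ((g z).re - (c * |z.re - pin T τ| + a)))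
    (c * ((|z.re - τ| - |z.re - pin T τ|) - exc T τ))
  have h7 := abs_sub ((f z).re - (c * |z.re - τ| + a)) ((g z).re - (c * |z.re - pin T τ| + a))
  have h8 : |c * ((|z.re - τ| - |z.re - pin T τ|) - exc T τ)| ≤
      |c| * (2 * min (max (|z.re| - T) 0) (exc T τ)) := by
    rw [abs_mul]
    exact mul_le_mul_of_nonneg_left h5 (abs_nonneg c)
  have h9 := e1 (z.re - τ)
  have h10 := e1 (z.re - pin T τ)
  linarith

/-- **upper bound everywhere**: only the attracted species grows -/
theorem re_far (hb : 0 < b) (hf : Asy b κ c a φ τ f) (hg : Asy b κ c a φ (pin T τ) g) (hT : 0 ≤ T)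
    {z : ℂ} (hz : |z.im| < b) :
    (f z).re ≤ (g z).re + c * exc T τ + 2 * max (-c) 0 * min (max (|z.re| - T) 0) (exc T τ) + 2 * κ := by
  have hk := hf.κ0 hb
  have h1 := (abs_le.1 (re_le_z hf hz)).2
  have h2 := (abs_le.1 (re_le_z hg hz)).1
  have h3 := geo_le hT τ z.re
  have h4 := geo_ge hT τ z.re
  have e1 : ∀ x : ℝ, κ * Real.exp (-2 * |x|) ≤ κ := by
    intro x
    have : Real.exp (-2 * |x|) ≤ 1 := Real.exp_le_one_iff.2 (by have := abs_nonneg x; linarith)
    nlinarith
  have h9 := e1 (z.re - τ)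
  have h10 := e1 (z.re - pin T τ)
  have hm : 0 ≤ min (max (|z.re| - T) 0) (exc T τ) := le_min (le_max_right _ _) (exc_nonneg _ _)
  rcases le_total 0 c with hc | hc
  · rw [max_eq_right (by linarith)]
    have h5 := mul_le_mul_of_nonneg_left h3 hc
    have e : c * (|z.re - τ| - |z.re - pin T τ|) = c * |z.re - τ| - c * |z.re - pin T τ| := by ring
    rw [e] at h5
    linarith
  · rw [max_eq_left (by linarith)]
    have h5 := mul_le_mul_of_nonpos_left h4 hc
    have e : c * (|z.re - τ| - |z.re - pin T τ|) = c * |z.re - τ| - c * |z.re - pin T τ| := by ring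
    have e2 : c * (exc T τ - 2 * min (max (|z.re| - T) 0) (exc T τ)) =
        c * exc T τ + 2 * -c * min (max (|z.re| - T) 0) (exc T τ) := by ring
    rw [e, e2] at h5
    linarith

/-- the derivatives inside -/
theorem cmp_d (hf : PotB b κ c τ f f1) (hg : PotB b κ c (pin T τ) g g1) (hT : 0 ≤ T)
    (h : T ≤ |τ|) {z : ℂ} (hz : |z.im| < b) (ht : sg τ * z.re ≤ T) :
    ‖f1 z - g1 z‖ ≤ 2 * κ * Real.exp (-2 * |z.re - pin T τ|) := by
  have hk := hf.κ0
  have h3 := geo_in hT h ht
  have h0 := exc_nonneg T τ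
  have h4 : Real.exp (-2 * |z.re - τ|) ≤ Real.exp (-2 * |z.re - pin T τ|) := by
    apply Real.exp_le_exp.2
    linarith
  have h5 : κ * Real.exp (-2 * |z.re - τ|) ≤ κ * Real.exp (-2 * |z.re - pin T τ|) :=
    mul_le_mul_of_nonneg_left h4 hk
  have hp := pin_eq_sg hT h
  have hτ := eq_sg τ
  rcases le_or_gt 0 τ with h6 | h6
  · have es : sg τ = 1 := if_pos h6
    rw [es, one_mul] at ht hp
    rw [abs_of_nonneg h6] at h
    have a1 := hf.tl z hz (by linarith)
    have a2 := hg.tl z hz (by rw [hp]; exact ht)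
    have e : f1 z - g1 z = (f1 z + c) - (g1 z + c) := by ring
    rw [e]
    refine (norm_sub_le _ _).trans ?_
    linarith
  · have es : sg τ = -1 := if_neg (not_le.2 h6)
    rw [es, neg_one_mul] at ht hp
    rw [abs_of_neg h6] at h
    have a1 := hf.tr z hz (by linarith)
    have a2 := hg.tr z hz (by rw [hp]; linarith)
    have e : f1 z - g1 z = (f1 z - c) - (g1 z - c) := by ring
    rw [e]
    refine (norm_sub_le _ _).trans ?_
    linarith

/-- the derivatives everywhere -/
theorem cmp_d_all (hf : PotB b κ c τ f f1) (hg : PotB b κ c (pin T τ) g g1) {z : ℂ} (hz : |z.im| < b) :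
    ‖f1 z - g1 z‖ ≤ 2 * |c| + 2 * κ := by
  have hk := hf.κ0
  have e1 : ∀ x : ℝ, κ * Real.exp (-2 * |x|) ≤ κ := by
    intro x
    have : Real.exp (-2 * |x|) ≤ 1 := Real.exp_le_one_iff.2 (by have := abs_nonneg x; linarith)
    nlinarith
  have k : ∀ {τ : ℝ} {f f1 : ℂ → ℂ}, PotB b κ c τ f f1 → ‖f1 z‖ ≤ |c| + κ := by
    intro τ f f1 h
    rcases le_total τ z.re with ht | ht
    · have h1 := h.tr z hz ht
      have h2 := norm_add_le (f1 z - c) (c : ℂ)
      rw [sub_add_cancel, Complex.norm_real, Real.norm_eq_abs] at h2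
      have := e1 (z.re - τ)
      linarith
    · have h1 := h.tl z hz ht
      have h2 := norm_sub_le (f1 z + c) (c : ℂ)
      rw [add_sub_cancel_right, Complex.norm_real, Real.norm_eq_abs] at h2
      have := e1 (z.re - τ)
      linarith
  have h1 := k hf
  have h2 := k hg
  have h3 := norm_sub_le (f1 z) (g1 z)
  linarith

/-! ### the step -/

/-- smooth step: `1` for `u ≤ 0`, `0` for `1 ≤ u` -/
def st (u : ℝ) : ℝ := Real.smoothTransition (1 - u)

lemma st_nonneg (u : ℝ) : 0 ≤ st u := Real.smoothTransition.nonneg _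

lemma st_le_one (u : ℝ) : st u ≤ 1 := Real.smoothTransition.le_one _

lemma st_one {u : ℝ} (h : u ≤ 0) : st u = 1 := Real.smoothTransition.one_of_one_le (by linarith)

lemma st_zero {u : ℝ} (h : 1 ≤ u) : st u = 0 := Real.smoothTransition.zero_of_nonpos (by linarith)

lemma contDiff_st : ContDiff ℝ 2 st :=
  Real.smoothTransition.contDiff.comp (contDiff_const.sub contDiff_id)

/-- derivative of the step -/
def st1 (u : ℝ) : ℝ := deriv st u

lemma hasDerivAt_st (u : ℝ) : HasDerivAt st (st1 u) u :=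
  ((contDiff_st.differentiable (by norm_num)) u).hasDerivAt

lemma continuous_st1 : Continuous st1 := contDiff_st.continuous_deriv (by norm_num)

lemma st1_left {u : ℝ} (h : u < 0) : st1 u = 0 := by
  have h1 : st =ᶠ[𝓝 u] fun _ => 1 := by
    filter_upwards [Iio_mem_nhds h] with x hx
    exact st_one (le_of_lt hx)
  unfold st1
  rw [h1.deriv_eq]
  simp

lemma st1_right {u : ℝ} (h : 1 < u) : st1 u = 0 := by
  have h1 : st =ᶠ[𝓝 u] fun _ => 0 := by
    filter_upwards [Ioi_mem_nhds h] with x hx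
    exact st_zero (le_of_lt hx)
  unfold st1
  rw [h1.deriv_eq]
  simp

lemma st1_zero : st1 0 = 0 := by
  have h1 : ∀ᶠ u in 𝓝[<] (0:ℝ), st1 u = 0 := by
    filter_upwards [self_mem_nhdsWithin] with u hu
    exact st1_left hu
  have h2 : Tendsto st1 (𝓝[<] (0:ℝ)) (𝓝 (st1 0)) := continuous_st1.continuousAt.tendsto.mono_left nhdsWithin_le_nhds
  have h3 : Tendsto st1 (𝓝[<] (0:ℝ)) (𝓝 0) := by
    refine Tendsto.congr' ?_ tendsto_const_nhds
    filter_upwards [h1] with u hu
    exact hu.symm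
  exact tendsto_nhds_unique h2 h3

theorem exists_st1 : ∃ D : ℝ, 1 ≤ D ∧ ∀ u, |st1 u| ≤ D := by
  obtain ⟨D, hD⟩ := (isCompact_Icc (a := (0:ℝ)) (b := 1)).exists_bound_of_continuousOn
    continuous_st1.continuousOn
  refine ⟨max D 1, le_max_right _ _, fun u => ?_⟩
  rcases lt_or_ge u 0 with h | h
  · rw [st1_left h, abs_zero]; positivity
  rcases lt_or_ge 1 u with h1 | h1
  · rw [st1_right h1, abs_zero]; positivity
  have := hD u ⟨h, h1⟩
  rw [Real.norm_eq_abs] at this
  exact this.trans (le_max_left _ _)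

/-- the bound of the derivative of the step -/
def stD : ℝ := exists_st1.choose

lemma stD_one : 1 ≤ stD := exists_st1.choose_spec.1

lemma st1_le (u : ℝ) : |st1 u| ≤ stD := exists_st1.choose_spec.2 u

/-! ### the remainder on a curve -/

/-- the remainder: true potential minus the pinned one minus the constant, cut off beyond `T + 1` -/
def rem (T τ c : ℝ) (f g : ℂ → ℂ) (η : ℝ → ℝ) (t : ℝ) : ℝ :=
  st (sg τ * t - T) * ((f (t + (η t : ℂ) * I)).re - (g (t + (η t : ℂ) * I)).re - c * exc T τ)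

/-- its derivative -/
def rem1 (T τ c : ℝ) (f f1 g g1 : ℂ → ℂ) (η η1 : ℝ → ℝ) (t : ℝ) : ℝ :=
  st1 (sg τ * t - T) * sg τ *
      ((f (t + (η t : ℂ) * I)).re - (g (t + (η t : ℂ) * I)).re - c * exc T τ) +
    st (sg τ * t - T) * ((f1 (t + (η t : ℂ) * I) * (1 + η1 t * I)).re -
      (g1 (t + (η t : ℂ) * I) * (1 + η1 t * I)).re)

section curve

variable {η η1 : ℝ → ℝ}

lemma cur_im (η : ℝ → ℝ) (t : ℝ) : ((t : ℂ) + (η t : ℂ) * I).im = η t := by simp

lemma cur_re (η : ℝ → ℝ) (t : ℝ) : ((t : ℂ) + (η t : ℂ) * I).re = t := by simp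

/-- inside the remainder is the exact difference -/
theorem rem_in (ht : |t| ≤ T) :
    rem T τ c f g η t = (f (t + (η t : ℂ) * I)).re - (g (t + (η t : ℂ) * I)).re - c * exc T τ := by
  unfold rem
  rw [st_one (by have := sg_mul_le τ t; linarith), one_mul]

lemma hasDerivAt_curve (hf : PotB b κ c τ f f1) (hη : |η t| < b) (hd : HasDerivAt η (η1 t) t) :
    HasDerivAt (fun t : ℝ => (f (t + (η t : ℂ) * I)).re) (f1 (t + (η t : ℂ) * I) * (1 + η1 t * I)).re t := by
  have h1 := hf.hd ((t : ℂ) + (η t : ℂ) * I) (by rw [cur_im]; exact hη)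
  have h2 : HasDerivAt (fun t : ℝ => (t : ℂ) + (η t : ℂ) * I) (1 + η1 t * I) t := by
    have h3 : HasDerivAt (fun t : ℝ => (t : ℂ)) 1 t := Complex.ofRealCLM.hasDerivAt
    exact h3.add (hd.ofReal_comp.mul_const I)
  exact Complex.reCLM.hasFDerivAt.comp_hasDerivAt t (h1.comp t h2)

theorem hasDerivAt_rem (hf : PotB b κ c τ f f1) {τ' : ℝ} (hg : PotB b κ c τ' g g1)
    (hη : |η t| < b) (hd : HasDerivAt η (η1 t) t) :
    HasDerivAt (rem T τ c f g η) (rem1 T τ c f f1 g g1 η η1 t) t := by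
  have h1 := hasDerivAt_curve hf hη hd
  have h2 := hasDerivAt_curve hg hη hd
  have h3 : HasDerivAt (fun t : ℝ => st (sg τ * t - T)) (st1 (sg τ * t - T) * sg τ) t := by
    have h4 : HasDerivAt (fun t : ℝ => sg τ * t - T) (sg τ) t := by
      simpa using ((hasDerivAt_id t).const_mul (sg τ)).sub_const T
    exact (hasDerivAt_st _).comp t h4
  exact h3.mul ((h1.sub h2).sub_const _)

lemma continuous_f1 (hf : PotB b κ c τ f f1) : ContinuousOn f1 {z : ℂ | |z.im| < b} := by
  intro z hz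
  have h1 := hf.hasDerivAt_iter 1 hz
  have h2 : HasDerivAt f1 (iteratedDeriv 2 f z) z := by
    refine h1.congr_of_eventuallyEq ?_
    filter_upwards [(PotB.isOpen_strip b).mem_nhds hz] with w hw
    rw [iteratedDeriv_one, hf.deriv_eq hw]
  exact h2.continuousAt.continuousWithinAt

lemma continuous_f (hf : PotB b κ c τ f f1) : ContinuousOn f {z : ℂ | |z.im| < b} :=
  fun z hz => (hf.hd z hz).continuousAt.continuousWithinAt

theorem continuous_rem1 (hf : PotB b κ c τ f f1) {τ' : ℝ} (hg : PotB b κ c τ' g g1)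
    (hη : ∀ t, |η t| < b) (hc : Continuous η) (hc1 : Continuous η1) :
    Continuous (rem1 T τ c f f1 g g1 η η1) := by
  have hz : Continuous fun t : ℝ => (t : ℂ) + (η t : ℂ) * I :=
    Complex.continuous_ofReal.add ((Complex.continuous_ofReal.comp hc).mul continuous_const)
  have hin : ∀ t : ℝ, (t : ℂ) + (η t : ℂ) * I ∈ {z : ℂ | |z.im| < b} := fun t => by
    show |((t : ℂ) + (η t : ℂ) * I).im| < b
    rw [cur_im]
    exact hη t
  have c1 := (continuous_f hf).comp_continuous hz hin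
  have c2 := (continuous_f hg).comp_continuous hz hin
  have c3 := (continuous_f1 hf).comp_continuous hz hin
  have c4 := (continuous_f1 hg).comp_continuous hz hin
  have c5 : Continuous fun t : ℝ => (1 + (η1 t : ℂ) * I) :=
    continuous_const.add ((Complex.continuous_ofReal.comp hc1).mul continuous_const)
  have c6 : Continuous fun t : ℝ => sg τ * t - T := (continuous_const.mul continuous_id).sub continuous_const
  unfold rem1
  refine Continuous.add (Continuous.mul ((continuous_st1.comp c6).mul continuous_const) ?_)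
    (Continuous.mul (contDiff_st.continuous.comp c6) ?_)
  · exact ((Complex.continuous_re.comp c1).sub (Complex.continuous_re.comp c2)).sub continuous_const
  · exact (Complex.continuous_re.comp (c3.mul c5)).sub (Complex.continuous_re.comp (c4.mul c5))

/-- constant of `rem_le` -/
def rc (κ c : ℝ) : ℝ := (2 * |c| + 2 * κ) * Real.exp 2

lemma rc_nonneg (hk : 0 ≤ κ) : 0 ≤ rc κ c := by unfold rc; positivity

/-- one unit beyond `T` -/
lemma unit_le (hk : 0 ≤ κ) (hT : 0 ≤ T) (h : T ≤ |τ|) (h1 : T ≤ sg τ * t) (h2 : sg τ * t ≤ T + 1) :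
    2 * |c| + 2 * κ ≤ rc κ c * Real.exp (-2 * |t - pin T τ|) := by
  have e : |t - pin T τ| = sg τ * t - T := by
    rw [pin_eq_sg hT h, abs_sub_sg, abs_of_nonneg (by linarith)]
  rw [e]
  unfold rc
  rw [mul_assoc, ← Real.exp_add]
  have : 1 ≤ Real.exp (2 + -2 * (sg τ * t - T)) := Real.one_le_exp (by linarith)
  have h0 : 0 ≤ 2 * |c| + 2 * κ := by positivity
  nlinarith

lemma in_le (hk : 0 ≤ κ) (x : ℝ) :
    2 * κ * Real.exp x ≤ rc κ c * Real.exp x := by
  have h1 : (1:ℝ) ≤ Real.exp 2 := Real.one_le_exp (by norm_num)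
  have h2 := abs_nonneg c
  have h3 := Real.exp_pos x
  unfold rc
  refine mul_le_mul_of_nonneg_right ?_ h3.le
  nlinarith

/-- **the remainder is exponentially small** -/
theorem rem_le (hb : 0 < b) (hf : Asy b κ c a φ τ f) (hg : Asy b κ c a φ (pin T τ) g) (hT : 0 ≤ T)
    (h : T ≤ |τ|) (hη : |η t| < b) :
    |rem T τ c f g η t| ≤ rc κ c * Real.exp (-2 * |t - pin T τ|) := by
  have hk := hf.κ0 hb
  have hz : |((t : ℂ) + (η t : ℂ) * I).im| < b := by rw [cur_im]; exact hη
  unfold rem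
  rcases le_total (sg τ * t) T with h1 | h1
  · rw [st_one (by linarith), one_mul]
    have h2 := cmp_re hb hf hg hT h hz (by rw [cur_re]; exact h1)
    rw [cur_re] at h2
    exact h2.trans (in_le hk _)
  · rcases le_total (sg τ * t) (T + 1) with h2 | h2
    · have h3 := cmp_re_all hb hf hg hT hz
      rw [cur_re] at h3
      have h4 : |t| - T ≤ 1 := by
        have e : |t| = |sg τ * t| := by rw [abs_mul, sg_abs, one_mul]
        rw [e, abs_of_nonneg (by linarith)]
        linarith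
      have h5 : min (max (|t| - T) 0) (exc T τ) ≤ 1 := (min_le_left _ _).trans (max_le h4 zero_le_one)
      rw [abs_mul, abs_of_nonneg (st_nonneg _)]
      have h6 := st_le_one (sg τ * t - T)
      have h7 := st_nonneg (sg τ * t - T)
      have h8 := unit_le (c := c) hk hT h h1 h2
      have h9 := abs_nonneg c
      have h10 : 2 * |c| * min (max (|t| - T) 0) (exc T τ) ≤ 2 * |c| * 1 := by gcongr
      calc _ ≤ 1 * |(f (t + (η t : ℂ) * I)).re - (g (t + (η t : ℂ) * I)).re - c * exc T τ| := by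
            gcongr
        _ ≤ _ := by linarith
    · rw [st_zero (by linarith), zero_mul, abs_zero]
      exact mul_nonneg (rc_nonneg hk) (Real.exp_pos _).le

/-- constant of `rem1_le` -/
def rc1 (κ c K : ℝ) : ℝ := (stD + 1 + K) * rc κ c

lemma norm_fac (y : ℝ) : ‖(1 : ℂ) + y * I‖ ≤ 1 + |y| := by
  refine (norm_add_le _ _).trans ?_
  rw [norm_one, norm_mul, Complex.norm_I, mul_one, Complex.norm_real, Real.norm_eq_abs]

/-- **its derivative is exponentially small** -/
theorem rem1_le (hf' : Asy b κ c a φ τ f) (hg' : Asy b κ c a φ (pin T τ) g)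
    (hf : PotB b κ c τ f f1) (hg : PotB b κ c (pin T τ) g g1) (hT : 0 ≤ T)
    (h : T ≤ |τ|) (hη : |η t| < b) {K : ℝ} (hK : |η1 t| ≤ K) :
    |rem1 T τ c f f1 g g1 η η1 t| ≤ rc1 κ c K * Real.exp (-2 * |t - pin T τ|) := by
  have hk := hf.κ0
  have hb := hf.b0
  have hK0 : 0 ≤ K := (abs_nonneg _).trans hK
  have hD := stD_one
  have hz : |((t : ℂ) + (η t : ℂ) * I).im| < b := by rw [cur_im]; exact hη
  have hR := rc_nonneg (c := c) hk
  have hE := Real.exp_pos (-2 * |t - pin T τ|)
  -- the second term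
  have e2 : (f1 (t + (η t : ℂ) * I) * (1 + η1 t * I)).re - (g1 (t + (η t : ℂ) * I) * (1 + η1 t * I)).re =
      ((f1 (t + (η t : ℂ) * I) - g1 (t + (η t : ℂ) * I)) * (1 + η1 t * I)).re := by
    rw [sub_mul, Complex.sub_re]
  have hs2 : |(f1 (t + (η t : ℂ) * I) * (1 + η1 t * I)).re - (g1 (t + (η t : ℂ) * I) * (1 + η1 t * I)).re| ≤
      ‖f1 (t + (η t : ℂ) * I) - g1 (t + (η t : ℂ) * I)‖ * (1 + K) := by
    rw [e2]
    refine (Complex.abs_re_le_norm _).trans ?_
    rw [norm_mul]
    refine mul_le_mul_of_nonneg_left ?_ (norm_nonneg _)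
    exact (norm_fac _).trans (by linarith)
  unfold rem1
  rcases le_total (sg τ * t) T with h1 | h1
  · have hst1 : st1 (sg τ * t - T) = 0 := by
      rcases lt_or_eq_of_le h1 with h2 | h2
      · exact st1_left (by linarith)
      · rw [h2, sub_self]; exact st1_zero
    rw [hst1, zero_mul, zero_mul, zero_add, st_one (by linarith), one_mul]
    have h2 := cmp_d hf hg hT h hz (by rw [cur_re]; exact h1)
    rw [cur_re] at h2
    have h3 : 2 * κ * Real.exp (-2 * |t - pin T τ|) ≤ rc κ c * Real.exp (-2 * |t - pin T τ|) := in_le hk _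
    have h4 : ‖f1 (t + (η t : ℂ) * I) - g1 (t + (η t : ℂ) * I)‖ * (1 + K) ≤
        (rc κ c * Real.exp (-2 * |t - pin T τ|)) * (1 + K) := by
      refine mul_le_mul_of_nonneg_right (h2.trans h3) (by linarith)
    unfold rc1
    have h5 : 0 ≤ rc κ c * Real.exp (-2 * |t - pin T τ|) := by positivity
    nlinarith
  · rcases le_total (sg τ * t) (T + 1) with h2 | h2
    · have h3 := cmp_re_all hb hf' hg' hT hz
      rw [cur_re] at h3
      have h4 : |t| - T ≤ 1 := by
        have e : |t| = |sg τ * t| := by rw [abs_mul, sg_abs, one_mul]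
        rw [e, abs_of_nonneg (by linarith)]
        linarith
      have h5 : min (max (|t| - T) 0) (exc T τ) ≤ 1 := (min_le_left _ _).trans (max_le h4 zero_le_one)
      have h9 := abs_nonneg c
      have h10 : 2 * |c| * min (max (|t| - T) 0) (exc T τ) ≤ 2 * |c| * 1 := by gcongr
      have h8 := unit_le (c := c) hk hT h h1 h2
      have q1 : |(f (t + (η t : ℂ) * I)).re - (g (t + (η t : ℂ) * I)).re - c * exc T τ| ≤
          rc κ c * Real.exp (-2 * |t - pin T τ|) := by linarith
      have q2 : ‖f1 (t + (η t : ℂ) * I) - g1 (t + (η t : ℂ) * I)‖ ≤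
          rc κ c * Real.exp (-2 * |t - pin T τ|) := (cmp_d_all hf hg hz).trans h8
      have q3 := st1_le (sg τ * t - T)
      have q4 := st_le_one (sg τ * t - T)
      have q5 := st_nonneg (sg τ * t - T)
      refine (abs_add_le _ _).trans ?_
      rw [abs_mul, abs_mul, sg_abs, mul_one, abs_mul, abs_of_nonneg q5]
      have q6 : |st1 (sg τ * t - T)| *
          |(f (t + (η t : ℂ) * I)).re - (g (t + (η t : ℂ) * I)).re - c * exc T τ| ≤
          stD * (rc κ c * Real.exp (-2 * |t - pin T τ|)) := by gcongr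
      have q7 : st (sg τ * t - T) * |(f1 (t + (η t : ℂ) * I) * (1 + η1 t * I)).re -
          (g1 (t + (η t : ℂ) * I) * (1 + η1 t * I)).re| ≤
          1 * ((rc κ c * Real.exp (-2 * |t - pin T τ|)) * (1 + K)) := by
        refine mul_le_mul q4 (hs2.trans ?_) (abs_nonneg _) zero_le_one
        exact mul_le_mul_of_nonneg_right q2 (by linarith)
      unfold rc1
      linarith
    · have hst1 : st1 (sg τ * t - T) = 0 := by
        rcases lt_or_eq_of_le h2 with h3 | h3
        · exact st1_right (by linarith)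
        · -- the step is constant on the right
          have h4 : ∀ᶠ u in 𝓝[>] (1:ℝ), st1 u = 0 := by
            filter_upwards [self_mem_nhdsWithin] with u hu
            exact st1_right hu
          have h5 : Tendsto st1 (𝓝[>] (1:ℝ)) (𝓝 (st1 1)) :=
            continuous_st1.continuousAt.tendsto.mono_left nhdsWithin_le_nhds
          have h6 : Tendsto st1 (𝓝[>] (1:ℝ)) (𝓝 0) := by
            refine Tendsto.congr' ?_ tendsto_const_nhds
            filter_upwards [h4] with u hu
            exact hu.symm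
          have h7 := tendsto_nhds_unique h5 h6
          rw [← h3, add_sub_cancel_left]
          exact h7
      rw [hst1, st_zero (by linarith)]
      simp only [zero_mul, add_zero, abs_zero]
      unfold rc1
      have : 0 ≤ stD + 1 + K := by linarith
      positivity

/-- **upper bound on the curve**: true potential ≤ pinned one + constant + remainder + attraction -/
theorem re_up (hb : 0 < b) (hf : Asy b κ c a φ τ f) (hg : Asy b κ c a φ (pin T τ) g) (hT : 0 ≤ T)
    (h : T ≤ |τ|) (hη : |η t| < b) :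
    (f (t + (η t : ℂ) * I)).re ≤ (g (t + (η t : ℂ) * I)).re + c * exc T τ + rem T τ c f g η t +
      2 * max (-c) 0 * min (max (|t| - T) 0) (exc T τ) + (if |t| ≤ T then 0 else 2 * κ + rc κ c) := by
  have hk := hf.κ0 hb
  have hz : |((t : ℂ) + (η t : ℂ) * I).im| < b := by rw [cur_im]; exact hη
  have hm : 0 ≤ min (max (|t| - T) 0) (exc T τ) := le_min (le_max_right _ _) (exc_nonneg _ _)
  have hc : 0 ≤ max (-c) 0 := le_max_right _ _
  split_ifs with ht
  · rw [rem_in ht]
    have := mul_nonneg (mul_nonneg zero_le_two hc) hm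
    linarith
  · have h1 := re_far hb hf hg hT hz
    rw [cur_re] at h1
    have h2 := rem_le hb hf hg hT h hη
    have h3 := (abs_le.1 h2).1
    have h4 : rc κ c * Real.exp (-2 * |t - pin T τ|) ≤ rc κ c * 1 := by
      refine mul_le_mul_of_nonneg_left ?_ (rc_nonneg hk)
      exact Real.exp_le_one_iff.2 (by have := abs_nonneg (t - pin T τ); linarith)
    linarith

end curve

/-! ### neutral groups -/

/-- real part of a neutral potential -/
theorem small_re (h : Asy b κ 0 0 φ τ f) {z : ℂ} (hz : |z.im| < b) :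
    |(f z).re| ≤ κ * Real.exp (-2 * |z.re - τ|) := by
  have := re_le_z h hz
  simpa using this

/-- derivative of a neutral potential -/
theorem small_d (h : PotB b κ 0 τ f f1) {z : ℂ} (hz : |z.im| < b) :
    ‖f1 z‖ ≤ κ * Real.exp (-2 * |z.re - τ|) := by
  rcases le_total τ z.re with ht | ht
  · simpa using h.tr z hz ht
  · simpa using h.tl z hz ht

/-- neutral potential on a curve: value and derivative -/
theorem small_curve (h : Asy b κ 0 0 φ τ f) (h' : PotB b κ 0 τ f f1) {η η1 : ℝ → ℝ} {K : ℝ}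
    (hη : |η t| < b) (hK : |η1 t| ≤ K) :
    |(f (t + (η t : ℂ) * I)).re| ≤ κ * Real.exp (-2 * |t - τ|) ∧
    |(f1 (t + (η t : ℂ) * I) * (1 + η1 t * I)).re| ≤ κ * (1 + K) * Real.exp (-2 * |t - τ|) := by
  have hz : |((t : ℂ) + (η t : ℂ) * I).im| < b := by rw [cur_im]; exact hη
  have h1 := small_re h hz
  have h2 := small_d h' hz
  rw [cur_re] at h1 h2
  refine ⟨h1, (Complex.abs_re_le_norm _).trans ?_⟩
  rw [norm_mul]
  have hk := h'.κ0
  have h3 : ‖(1 : ℂ) + η1 t * I‖ ≤ 1 + K := (norm_fac _).trans (by linarith)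
  calc _ ≤ (κ * Real.exp (-2 * |t - τ|)) * (1 + K) := by gcongr
    _ = _ := by ring

/-! ### the groups of `Cls` -/

/-- pinned position -/
def pinw (T : ℝ) (w : ℂ) : ℂ := ⟨w.re, pin T w.im⟩

variable {w : ℂ} {δ : ℝ}

@[simp] lemma pinw_re (T : ℝ) (w : ℂ) : (pinw T w).re = w.re := rfl

@[simp] lemma pinw_im (T : ℝ) (w : ℂ) : (pinw T w).im = pin T w.im := rfl

lemma pinw_of_le (h : |w.im| ≤ T) : pinw T w = w := by
  apply Complex.ext
  · rfl
  · exact pin_of_le h

lemma away_pinw (h : Away δ w) (T : ℝ) : Away δ (pinw T w) := fun n => by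
  have := h n
  simpa using this

lemma yw_pinw (T : ℝ) (w : ℂ) (k : ℤ) : yw (pinw T w) k = yw w k := rfl

lemma wph_pinw (L : List (ℤ × ℝ)) (T : ℝ) (w : ℂ) : wph L (pinw T w) = wph L w := rfl

lemma gph_pinw (c : Cl) (s σ : Bool) (T : ℝ) (w : ℂ) :
    gph s (grp c σ (pinw T w)) = gph s (grp c σ w) := by
  rw [gph_grp, gph_grp, wph_pinw]

lemma gq_pinw (c : Cl) (s σ : Bool) (T : ℝ) (w : ℂ) :
    gq s (grp c σ (pinw T w)) = gq s (grp c σ w) := by
  rw [gq_grp, gq_grp]

/-- common constant of the groups -/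
def kk (δ b : ℝ) : ℝ := 15 * (|ka δ b| + |kb δ b|)

lemma kk_nonneg (δ b : ℝ) : 0 ≤ kk δ b := by unfold kk; positivity

lemma gn_ka_le (c : Cl) (σ : Bool) (w : ℂ) (δ b : ℝ) : gn (grp c σ w) * ka δ b ≤ kk δ b := by
  have h1 := gn_grp c σ w
  have h2 := gn_nonneg (grp c σ w)
  have h3 := le_abs_self (ka δ b)
  have h4 := abs_nonneg (ka δ b)
  have h5 := abs_nonneg (kb δ b)
  unfold kk
  calc gn (grp c σ w) * ka δ b ≤ gn (grp c σ w) * |ka δ b| := by gcongr
    _ ≤ 15 * |ka δ b| := by gcongr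
    _ ≤ _ := by linarith

lemma gn_kb_le (c : Cl) (σ : Bool) (w : ℂ) (δ b : ℝ) : gn (grp c σ w) * kb δ b ≤ kk δ b := by
  have h1 := gn_grp c σ w
  have h2 := gn_nonneg (grp c σ w)
  have h3 := le_abs_self (kb δ b)
  have h4 := abs_nonneg (ka δ b)
  have h5 := abs_nonneg (kb δ b)
  unfold kk
  calc gn (grp c σ w) * kb δ b ≤ gn (grp c σ w) * |kb δ b| := by gcongr
    _ ≤ 15 * |kb δ b| := by gcongr
    _ ≤ _ := by linarith

/-- asymptotics of the group, common constant -/
theorem asy_grp (hb0 : 0 < b) (hb : b < δ * NUMF.l) (hδ : δ ≤ 1) (h : Away δ w) (c : Cl) (s σ : Bool) :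
    Asy b (kk δ b) (gq s (grp c σ w)) (-(gq s (grp c σ w) * Real.log 2)) (gph s (grp c σ w)) w.im
      (gp s (grp c σ w)) :=
  (asy_gp hb0 hb hδ s (grp_ok h c σ)).mono (gn_ka_le c σ w δ b)

/-- the group is a potential, common constant -/
theorem potB_grp (hb0 : 0 < b) (hb : b < δ * NUMF.l) (h : Away δ w) (c : Cl) (s σ : Bool) :
    PotB b (kk δ b) (gq s (grp c σ w)) w.im (gp s (grp c σ w)) (gp1 s (grp c σ w)) :=
  (potB_gp hb0 hb s (grp_ok h c σ)).mono (gn_kb_le c σ w δ b)

/-- asymptotics of the pinned group -/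
theorem asy_grp_pin (hb0 : 0 < b) (hb : b < δ * NUMF.l) (hδ : δ ≤ 1) (h : Away δ w) (T : ℝ) (c : Cl)
    (s σ : Bool) :
    Asy b (kk δ b) (gq s (grp c σ w)) (-(gq s (grp c σ w) * Real.log 2)) (gph s (grp c σ w))
      (pin T w.im) (gp s (grp c σ (pinw T w))) := by
  have h1 := asy_grp hb0 hb hδ (away_pinw h T) c s σ
  rw [gph_pinw, gq_pinw, pinw_im] at h1
  exact h1

/-- the pinned group is a potential -/
theorem potB_grp_pin (hb0 : 0 < b) (hb : b < δ * NUMF.l) (h : Away δ w) (T : ℝ) (c : Cl) (s σ : Bool) :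
    PotB b (kk δ b) (gq s (grp c σ w)) (pin T w.im) (gp s (grp c σ (pinw T w)))
      (gp1 s (grp c σ (pinw T w))) := by
  have h1 := potB_grp hb0 hb (away_pinw h T) c s σ
  rw [gq_pinw, pinw_im] at h1
  exact h1

/-- remainder of a pinned group -/
def remG (T : ℝ) (c : Cl) (s σ : Bool) (w : ℂ) (η : ℝ → ℝ) (t : ℝ) : ℝ :=
  rem T w.im (gq s (grp c σ w)) (gp s (grp c σ w)) (gp s (grp c σ (pinw T w))) η t

/-- its derivative -/
def remG1 (T : ℝ) (c : Cl) (s σ : Bool) (w : ℂ) (η η1 : ℝ → ℝ) (t : ℝ) : ℝ :=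
  rem1 T w.im (gq s (grp c σ w)) (gp s (grp c σ w)) (gp1 s (grp c σ w))
    (gp s (grp c σ (pinw T w))) (gp1 s (grp c σ (pinw T w))) η η1 t

variable {η η1 : ℝ → ℝ}

/-- a half quantum inside the window has no remainder -/
theorem remG_zero (h : |w.im| ≤ T) (c : Cl) (s σ : Bool) (η : ℝ → ℝ) (t : ℝ) :
    remG T c s σ w η t = 0 := by
  unfold remG rem
  rw [pinw_of_le h, exc_of_le h]
  simp

theorem remG1_zero (h : |w.im| ≤ T) (c : Cl) (s σ : Bool) (η η1 : ℝ → ℝ) (t : ℝ) :
    remG1 T c s σ w η η1 t = 0 := by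
  unfold remG1 rem1
  rw [pinw_of_le h, exc_of_le h]
  simp

theorem hasDerivAt_remG (hb0 : 0 < b) (hb : b < δ * NUMF.l) (h : Away δ w) (T : ℝ) (c : Cl) (s σ : Bool)
    (hη : |η t| < b) (hd : HasDerivAt η (η1 t) t) :
    HasDerivAt (remG T c s σ w η) (remG1 T c s σ w η η1 t) t :=
  hasDerivAt_rem (potB_grp hb0 hb h c s σ) (potB_grp_pin hb0 hb h T c s σ) hη hd

theorem continuous_remG1 (hb0 : 0 < b) (hb : b < δ * NUMF.l) (h : Away δ w) (T : ℝ) (c : Cl)
    (s σ : Bool) (hη : ∀ t, |η t| < b) (hc : Continuous η) (hc1 : Continuous η1) :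
    Continuous (remG1 T c s σ w η η1) :=
  continuous_rem1 (potB_grp hb0 hb h c s σ) (potB_grp_pin hb0 hb h T c s σ) hη hc hc1

/-- constant of the remainder -/
def kr (δ b : ℝ) : ℝ := rc (kk δ b) 3

/-- constant of its derivative -/
def kr1 (δ b K : ℝ) : ℝ := rc1 (kk δ b) 3 K

lemma abs_gq_le (c : Cl) (s σ : Bool) (w : ℂ) : |gq s (grp c σ w)| ≤ 3 := by
  rw [gq_grp]
  cases c <;> cases s <;> cases σ <;> norm_num [qc]

lemma rc_le {κ c : ℝ} (hc : |c| ≤ 3) : rc κ c ≤ rc κ 3 := by
  unfold rc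
  rw [abs_of_pos (by norm_num : (0:ℝ) < 3)]
  have := Real.exp_pos 2
  gcongr

/-- **the remainder of the group** -/
theorem remG_le (hb0 : 0 < b) (hb : b < δ * NUMF.l) (hδ : δ ≤ 1) (h : Away δ w) (hT : 0 ≤ T) (c : Cl)
    (s σ : Bool) (hη : |η t| < b) :
    |remG T c s σ w η t| ≤ kr δ b * Real.exp (-2 * |t - pin T w.im|) := by
  have hE := Real.exp_pos (-2 * |t - pin T w.im|)
  have hR := rc_nonneg (c := 3) (kk_nonneg δ b)
  rcases le_total |w.im| T with h1 | h1
  · rw [remG_zero h1, abs_zero]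
    unfold kr
    positivity
  · refine (rem_le hb0 (asy_grp hb0 hb hδ h c s σ) (asy_grp_pin hb0 hb hδ h T c s σ) hT h1 hη).trans ?_
    exact mul_le_mul_of_nonneg_right (rc_le (abs_gq_le c s σ w)) hE.le

/-- **its derivative** -/
theorem remG1_le (hb0 : 0 < b) (hb : b < δ * NUMF.l) (hδ : δ ≤ 1) (h : Away δ w) (hT : 0 ≤ T) (c : Cl)
    (s σ : Bool) (hη : |η t| < b) {K : ℝ} (hK : |η1 t| ≤ K) :
    |remG1 T c s σ w η η1 t| ≤ kr1 δ b K * Real.exp (-2 * |t - pin T w.im|) := by
  have hE := Real.exp_pos (-2 * |t - pin T w.im|)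
  have hR := rc_nonneg (c := 3) (kk_nonneg δ b)
  have hD := stD_one
  have hK0 : 0 ≤ K := (abs_nonneg _).trans hK
  rcases le_total |w.im| T with h1 | h1
  · rw [remG1_zero h1, abs_zero]
    unfold kr1 rc1
    positivity
  · refine (rem1_le (asy_grp hb0 hb hδ h c s σ) (asy_grp_pin hb0 hb hδ h T c s σ)
      (potB_grp hb0 hb h c s σ) (potB_grp_pin hb0 hb h T c s σ) hT h1 hη hK).trans ?_
    refine mul_le_mul_of_nonneg_right ?_ hE.le
    unfold kr1 rc1
    exact mul_le_mul_of_nonneg_left (rc_le (abs_gq_le c s σ w)) (by linarith)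

/-- **inside the window**: true potential = pinned one + constant + remainder -/
theorem gp_in (ht : |t| ≤ T) (c : Cl) (s σ : Bool) (w : ℂ) (η : ℝ → ℝ) :
    (gp s (grp c σ w) (t + (η t : ℂ) * I)).re =
      (gp s (grp c σ (pinw T w)) (t + (η t : ℂ) * I)).re + gq s (grp c σ w) * exc T w.im +
        remG T c s σ w η t := by
  unfold remG
  rw [rem_in ht]
  ring

/-- constant beyond the window -/
def kfar (δ b : ℝ) : ℝ := 2 * kk δ b + rc (kk δ b) 3

lemma kfar_nonneg (δ b : ℝ) : 0 ≤ kfar δ b := by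
  have := kk_nonneg δ b
  have := rc_nonneg (c := 3) (kk_nonneg δ b)
  unfold kfar
  positivity

/-- **everywhere**: true potential ≤ pinned one + constant + remainder + attraction -/
theorem gp_up (hb0 : 0 < b) (hb : b < δ * NUMF.l) (hδ : δ ≤ 1) (h : Away δ w) (hT : 0 ≤ T) (c : Cl)
    (s σ : Bool) (hη : |η t| < b) :
    (gp s (grp c σ w) (t + (η t : ℂ) * I)).re ≤
      (gp s (grp c σ (pinw T w)) (t + (η t : ℂ) * I)).re + gq s (grp c σ w) * exc T w.im +
        remG T c s σ w η t + 2 * max (-gq s (grp c σ w)) 0 * min (max (|t| - T) 0) (exc T w.im) +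
        (if |t| ≤ T then 0 else kfar δ b) := by
  have hm : 0 ≤ min (max (|t| - T) 0) (exc T w.im) := le_min (le_max_right _ _) (exc_nonneg _ _)
  have hc : 0 ≤ max (-gq s (grp c σ w)) 0 := le_max_right _ _
  have hf := kfar_nonneg δ b
  rcases le_total |w.im| T with h1 | h1
  · rw [remG_zero h1, pinw_of_le h1, exc_of_le h1]
    have h2 : 0 ≤ (if |t| ≤ T then (0:ℝ) else kfar δ b) := by split_ifs <;> linarith
    have h3 : 0 ≤ 2 * max (-gq s (grp c σ w)) 0 * min (max (|t| - T) 0) (0:ℝ) := by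
      have : 0 ≤ min (max (|t| - T) 0) (0:ℝ) := le_min (le_max_right _ _) le_rfl
      positivity
    linarith
  · have h2 := re_up hb0 (asy_grp hb0 hb hδ h c s σ) (asy_grp_pin hb0 hb hδ h T c s σ) hT h1 hη
    refine h2.trans ?_
    have h3 : (if |t| ≤ T then (0:ℝ) else 2 * kk δ b + rc (kk δ b) (gq s (grp c σ w))) ≤
        (if |t| ≤ T then 0 else kfar δ b) := by
      split_ifs
      · exact le_rfl
      · unfold kfar
        have := rc_le (κ := kk δ b) (abs_gq_le c s σ w)
        linarith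
    unfold remG
    linarith

/-- the class `.w` (bare half quantum): the attraction is at most `2 min (|t| - T)₊ x` -/
theorem gp_up_w (hb0 : 0 < b) (hb : b < δ * NUMF.l) (hδ : δ ≤ 1) (h : Away δ w) (hT : 0 ≤ T)
    (s σ : Bool) (hη : |η t| < b) :
    (gp s (grp .w σ w) (t + (η t : ℂ) * I)).re ≤
      (gp s (grp .w σ (pinw T w)) (t + (η t : ℂ) * I)).re + (if s = σ then 1 else -1) * exc T w.im +
        remG T .w s σ w η t + (if s = σ then 0 else 2 * min (max (|t| - T) 0) (exc T w.im)) +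
        (if |t| ≤ T then 0 else kfar δ b) := by
  have h1 := gp_up hb0 hb hδ h hT .w s σ hη
  have e : gq s (grp .w σ w) = if s = σ then 1 else -1 := by
    rw [gq_grp]
    simp [qc]
  rw [e] at h1
  by_cases hs : s = σ
  · simp only [hs, if_true] at h1 ⊢
    have e2 : max (-(1:ℝ)) 0 = 0 := max_eq_right (by norm_num)
    rw [e2] at h1
    linarith
  · simp only [hs, if_false] at h1 ⊢
    have e2 : max (-(-1:ℝ)) 0 = 1 := by norm_num
    rw [e2] at h1
    linarith

/-- the constants of the two species cancel -/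
theorem const_cancel (c : Cl) (σ : Bool) (w : ℂ) (x : ℝ) :
    gq true (grp c σ w) * x + gq false (grp c σ w) * x = 0 := by
  rw [← add_mul, gq_neutral, zero_mul]

/-- the neutral class `.d` on a curve, all heights -/
theorem d_curve (hb0 : 0 < b) (hb : b < δ * NUMF.l) (hδ : δ ≤ 1) (h : Away δ w) (s σ : Bool)
    (hη : |η t| < b) {K : ℝ} (hK : |η1 t| ≤ K) :
    |(gp s (grp .d σ w) (t + (η t : ℂ) * I)).re| ≤ kk δ b * Real.exp (-2 * |t - w.im|) ∧
    |(gp1 s (grp .d σ w) (t + (η t : ℂ) * I) * (1 + η1 t * I)).re| ≤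
      kk δ b * (1 + K) * Real.exp (-2 * |t - w.im|) := by
  have h1 := asy_grp hb0 hb hδ h .d s σ
  have h2 := potB_grp hb0 hb h .d s σ
  have e : gq s (grp .d σ w) = 0 := by
    rw [gq_grp]
    simp [qc]
  rw [e] at h1 h2
  rw [zero_mul, neg_zero] at h1
  exact small_curve h1 h2 hη hK

end

end NUSp
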