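import Pool.Agent.NUSp.Pot

/-!
# The spectator classes

`grp c σ w`: the group of the class `c` whose half quantum of type `σ` is at `w`:

* `.w` : `{w}` (classes `W1`, `F0`);
* `.p` : `{w, quantum of the other species at w + 3 l}` (`P1`);
* `.hs` : `{w, string of the other species at w - 2 l}` (`Hs`);
* `.hp` : the same and a quantum of the species `σ` at `w` (`Hs+`);
* `.d` : `{w, half quantum of the other type at w + 3 l}` (`D1`).

`wX c`, `wY c`: the reduced words of sines on the species `σ` and on the other one.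
`phX`, `phY`: the half steps of the phases.
-/

set_option autoImplicit false

open Complex Set Filter Topology

namespace NUSp

open NUO

noncomputable section


/-- the classes -/
inductive Cl
  | w | p | hs | hp | d
  deriving DecidableEq

/-- the group of a class -/
def grp (c : Cl) (σ : Bool) (w : ℂ) : Grp :=
  match c with
  | .w => ⟨[(σ, w)], []⟩
  | .p => ⟨[(σ, w)], [(!σ, false, w + 3 * NUMF.l)]⟩
  | .hs => ⟨[(σ, w)], [(!σ, true, w - 2 * NUMF.l)]⟩
  | .hp => ⟨[(σ, w)], [(!σ, true, w - 2 * NUMF.l), (σ, false, w)]⟩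
  | .d => ⟨[(σ, w), (!σ, w + 3 * NUMF.l)], []⟩

/-- reduced word on the species `σ` -/
def wX : Cl → List (ℤ × ℝ)
  | .w => [(0, 1), (-2, 1), (-1, -1)]
  | .p => [(0, -1), (-2, 1), (-1, -1), (1, 2), (2, -2)]
  | .hs => [(-3, -2), (0, -1), (-2, 1), (-1, -1)]
  | .hp => [(-3, -2), (0, 1), (-2, 2), (-1, -2), (2, 1), (1, -1)]
  | .d => [(-2, 1), (-1, -1), (1, 1), (2, -1)]

/-- reduced word on the other species -/
def wY : Cl → List (ℤ × ℝ)
  | .w => [(4, 1), (3, -1), (-3, -1)]
  | .p => [(-3, 1), (-1, 1), (-2, -1)]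
  | .hs => [(2, 1), (0, 1), (4, 1)]
  | .hp => [(2, 1), (0, 1), (4, 3), (3, -2), (-3, -2)]
  | .d => []

/-- reduced word of the class on the species `s` -/
def wc (c : Cl) (o : Bool) : List (ℤ × ℝ) := if o then wX c else wY c

variable {δ b : ℝ} {w ζ : ℂ}

lemma add3 (w : ℂ) : w + 3 * NUMF.l = w + ((3 : ℤ) : ℂ) * NUMF.l := by push_cast; ring

lemma sub2 (w : ℂ) : w - 2 * NUMF.l = w + ((-2 : ℤ) : ℂ) * NUMF.l := by push_cast; ring

lemma grp_ok (h : Away δ w) (c : Cl) (σ : Bool) : (grp c σ w).Ok δ w.im := by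
  have h3 : Away δ (w + 3 * NUMF.l) := by rw [add3]; exact Away.shift h 3
  have h2 : Away δ (w - 2 * NUMF.l) := by rw [sub2]; exact Away.shift h (-2)
  have i3 : (w + 3 * NUMF.l : ℂ).im = w.im := by simp
  have i2 : (w - 2 * NUMF.l : ℂ).im = w.im := by simp
  cases c <;> refine ⟨?_, ?_, ?_, ?_⟩ <;> intro x hx <;>
    simp only [grp, List.mem_cons, List.not_mem_nil, or_false] at hx <;>
    first
    | (subst hx; first | exact h | exact h3 | exact h2 | exact i3 | exact i2 | rfl)
    | (rcases hx with hx | hx <;> subst hx <;>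
        first | exact h | exact h3 | exact h2 | exact i3 | exact i2 | rfl)

lemma gn_grp (c : Cl) (σ : Bool) (w : ℂ) : gn (grp c σ w) ≤ 15 := by
  cases c <;> norm_num [gn, grp]

/-! ### reduced words -/

lemma bk8 (w : ℂ) (k : ℤ) (ζ : ℂ) : bk w (k - 8) ζ = bk w k ζ := by
  rw [← bk_add8 w (k - 8)]
  congr 1
  ring

lemma yw8 (w : ℂ) (k : ℤ) : yw w (k - 8) = yw w k := by
  rw [← yw_add8 w (k - 8)]
  congr 1
  ring

lemma cp_eq_wd (s : Bool) (x : Bool × Bool × ℂ) (ζ : ℂ) :
    cp s x ζ = wd (mlt (decide (s = x.1)) x.2.1) x.2.2 ζ := rfl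

/-- **the potential of a class is a reduced word** -/
theorem gp_grp (c : Cl) (s σ : Bool) (w ζ : ℂ) : gp s (grp c σ w) ζ = wd (wc c (decide (s = σ))) w ζ := by
  have m8 : bk w (-5) ζ = bk w 3 ζ := bk8 w 3 ζ
  have m7 : bk w (-4) ζ = bk w 4 ζ := bk8 w 4 ζ
  have m6 : bk w (-6) ζ = bk w 2 ζ := bk8 w 2 ζ
  have m5 : bk w 5 ζ = bk w (-3) ζ := (bk8 w 5 ζ).symm
  have e : ∀ s σ : Bool, decide (s = !σ) = !decide (s = σ) := by decide
  unfold gp hp wc
  cases c <;> simp only [grp, List.map_cons, List.map_nil, List.sum_cons, List.sum_nil, add_zero,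
    cp_eq_wd, add3, sub2, wd_shift, e] <;>
    cases (decide (s = σ)) <;>
    simp [hlt, mlt, wX, wY, sh, m8, m7, m6, m5] <;> ring

theorem gph_grp (c : Cl) (s σ : Bool) (w : ℂ) :
    gph s (grp c σ w) = wph (wc c (decide (s = σ))) w := by
  have m8 : yw w (-5) = yw w 3 := yw8 w 3
  have m7 : yw w (-4) = yw w 4 := yw8 w 4
  have m6 : yw w (-6) = yw w 2 := yw8 w 2
  have m5 : yw w 5 = yw w (-3) := (yw8 w 5).symm
  have e : ∀ s σ : Bool, decide (s = !σ) = !decide (s = σ) := by decide
  have hs : ∀ (n : ℤ) (L : List (ℤ × ℝ)), wph L (w + n * NUMF.l) = wph (sh n L) w := by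
    intro n L
    unfold wph sh
    rw [List.map_map]
    congr 1
    refine List.map_congr_left fun kc _ => ?_
    simp only [Function.comp_apply]
    rw [yw_shift]
  unfold gph wc
  cases c <;> simp only [grp, List.map_cons, List.map_nil, List.sum_cons, List.sum_nil, add_zero,
    add3, sub2, hs, e] <;>
    cases (decide (s = σ)) <;>
    simp [hlt, mlt, wX, wY, sh, m8, m7, m6, m5] <;> ring

/-- charges of the classes on the species `σ` -/
def qc : Cl → ℝ
  | .w => 1
  | .p => -1
  | .hs => -3
  | .hp => -1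
  | .d => 0

theorem gq_grp (c : Cl) (s σ : Bool) (w : ℂ) :
    gq s (grp c σ w) = if s = σ then qc c else -qc c := by
  unfold gq hcq cq
  cases c <;> cases s <;> cases σ <;> norm_num [grp, qc]

/-! ### phases -/

lemma red_of {y : ℝ} (n : ℤ) (h1 : 8 * n - 4 ≤ y) (h2 : y < 8 * n + 4) : red y = y - 8 * n := by
  unfold red
  have h : round (y / 8) = n := by
    rw [round_eq, Int.floor_eq_iff]
    constructor <;> linarith
  rw [h]

lemma yw_of (w : ℂ) (k n : ℤ) (h1 : 8 * n - 4 ≤ 3 - k + w.re / NUMF.l) (h2 : 3 - k + w.re / NUMF.l < 8 * n + 4) :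
    yw w k = (3 - k + w.re / NUMF.l - 8 * n) * NUMF.l := by
  unfold yw
  have e : ((3 - k : ℤ) : ℝ) - (-(w.re / NUMF.l)) = 3 - k + w.re / NUMF.l := by push_cast; ring
  rw [e, red_of n h1 h2]

/-- phases in units `l` on the species `σ`, the half quantum at real part `p l`; for `.w` two ranges:
`right = true`: `1 < p < 2`, `false`: `-3 < p < -2` -/
def phX : Cl → Bool → ℝ → ℝ
  | .w, true, p => p - 4
  | .w, false, p => 4 + p
  | .p, _, p => -p
  | .hs, _, p => 2 - 3 * p
  | .hp, _, p => 8 - p
  | .d, _, _ => 2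

/-- phases on the other species -/
def phY : Cl → Bool → ℝ → ℝ
  | .w, true, p => 1 - p
  | .w, false, p => -7 - p
  | .p, _, p => 5 + p
  | .hs, _, p => 3 + 3 * p
  | .hp, _, p => 5 + p
  | .d, _, _ => 0

/-- phase of the class on the species `s` (`o`: own species?) -/
def phc (c : Cl) (o rt : Bool) (p : ℝ) : ℝ := if o then phX c rt p else phY c rt p

/-- range of the real part (in units `l`) of the half quantum -/
def rg : Cl → Bool → ℝ → Prop
  | .w, true, p => 1 < p ∧ p < 2
  | .w, false, p => -3 < p ∧ p < -2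
  | .p, _, p => -3 < p ∧ p < -2
  | .hs, _, p => 0 < p ∧ p < 1
  | .hp, _, p => 0 < p ∧ p < 1
  | .d, _, p => -3 < p ∧ p < -2

theorem gph_eq (c : Cl) (s σ rt : Bool) {w : ℂ} (h : rg c rt (w.re / NUMF.l)) :
    gph s (grp c σ w) = phc c (decide (s = σ)) rt (w.re / NUMF.l) * NUMF.l := by
  rw [gph_grp]
  unfold wc phc
  cases c
  · -- w
    cases rt
    · obtain ⟨h1, h2⟩ := h
      have a0 := yw_of w 0 0 (by push_cast; linarith) (by push_cast; linarith)
      have a2 := yw_of w (-2) 0 (by push_cast; linarith) (by push_cast; linarith)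
      have a1 := yw_of w (-1) 0 (by push_cast; linarith) (by push_cast; linarith)
      have a4 := yw_of w 4 0 (by push_cast; linarith) (by push_cast; linarith)
      have a3 := yw_of w 3 0 (by push_cast; linarith) (by push_cast; linarith)
      have b3 := yw_of w (-3) 0 (by push_cast; linarith) (by push_cast; linarith)
      push_cast at a0 a1 a2 a3 a4 b3
      cases (decide (s = σ)) <;> simp [wX, wY, phX, phY, a0, a1, a2, a3, a4, b3] <;> ring
    · obtain ⟨h1, h2⟩ := h
      have a0 := yw_of w 0 1 (by push_cast; linarith) (by push_cast; linarith)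
      have a2 := yw_of w (-2) 1 (by push_cast; linarith) (by push_cast; linarith)
      have a1 := yw_of w (-1) 1 (by push_cast; linarith) (by push_cast; linarith)
      have a4 := yw_of w 4 0 (by push_cast; linarith) (by push_cast; linarith)
      have a3 := yw_of w 3 0 (by push_cast; linarith) (by push_cast; linarith)
      have b3 := yw_of w (-3) 1 (by push_cast; linarith) (by push_cast; linarith)
      push_cast at a0 a1 a2 a3 a4 b3
      cases (decide (s = σ)) <;> simp [wX, wY, phX, phY, a0, a1, a2, a3, a4, b3] <;> ring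
  · -- p
    have h' : -3 < w.re / NUMF.l ∧ w.re / NUMF.l < -2 := by cases rt <;> exact h
    obtain ⟨h1, h2⟩ := h'
    have a0 := yw_of w 0 0 (by push_cast; linarith) (by push_cast; linarith)
    have b2 := yw_of w (-2) 0 (by push_cast; linarith) (by push_cast; linarith)
    have b1 := yw_of w (-1) 0 (by push_cast; linarith) (by push_cast; linarith)
    have a1 := yw_of w 1 0 (by push_cast; linarith) (by push_cast; linarith)
    have a2 := yw_of w 2 0 (by push_cast; linarith) (by push_cast; linarith)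
    have b3 := yw_of w (-3) 0 (by push_cast; linarith) (by push_cast; linarith)
    push_cast at a0 a1 a2 b1 b2 b3
    cases (decide (s = σ)) <;> cases rt <;> simp [wX, wY, phX, phY, a0, a1, a2, b1, b2, b3] <;> ring
  · -- hs
    have h' : 0 < w.re / NUMF.l ∧ w.re / NUMF.l < 1 := by cases rt <;> exact h
    obtain ⟨h1, h2⟩ := h'
    have a0 := yw_of w 0 0 (by push_cast; linarith) (by push_cast; linarith)
    have b2 := yw_of w (-2) 1 (by push_cast; linarith) (by push_cast; linarith)
    have b1 := yw_of w (-1) 1 (by push_cast; linarith) (by push_cast; linarith)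
    have a2 := yw_of w 2 0 (by push_cast; linarith) (by push_cast; linarith)
    have a4 := yw_of w 4 0 (by push_cast; linarith) (by push_cast; linarith)
    have b3 := yw_of w (-3) 1 (by push_cast; linarith) (by push_cast; linarith)
    push_cast at a0 a2 a4 b1 b2 b3
    cases (decide (s = σ)) <;> cases rt <;> simp [wX, wY, phX, phY, a0, a2, a4, b1, b2, b3] <;> ring
  · -- hp
    have h' : 0 < w.re / NUMF.l ∧ w.re / NUMF.l < 1 := by cases rt <;> exact h
    obtain ⟨h1, h2⟩ := h'
    have a0 := yw_of w 0 0 (by push_cast; linarith) (by push_cast; linarith)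
    have b2 := yw_of w (-2) 1 (by push_cast; linarith) (by push_cast; linarith)
    have b1 := yw_of w (-1) 1 (by push_cast; linarith) (by push_cast; linarith)
    have a1 := yw_of w 1 0 (by push_cast; linarith) (by push_cast; linarith)
    have a2 := yw_of w 2 0 (by push_cast; linarith) (by push_cast; linarith)
    have a3 := yw_of w 3 0 (by push_cast; linarith) (by push_cast; linarith)
    have a4 := yw_of w 4 0 (by push_cast; linarith) (by push_cast; linarith)
    have b3 := yw_of w (-3) 1 (by push_cast; linarith) (by push_cast; linarith)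
    push_cast at a0 a1 a2 a3 a4 b1 b2 b3
    cases (decide (s = σ)) <;> cases rt <;>
      simp [wX, wY, phX, phY, a0, a1, a2, a3, a4, b1, b2, b3] <;> ring
  · -- d
    have h' : -3 < w.re / NUMF.l ∧ w.re / NUMF.l < -2 := by cases rt <;> exact h
    obtain ⟨h1, h2⟩ := h'
    have b2 := yw_of w (-2) 0 (by push_cast; linarith) (by push_cast; linarith)
    have b1 := yw_of w (-1) 0 (by push_cast; linarith) (by push_cast; linarith)
    have a1 := yw_of w 1 0 (by push_cast; linarith) (by push_cast; linarith)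
    have a2 := yw_of w 2 0 (by push_cast; linarith) (by push_cast; linarith)
    push_cast at a1 a2 b1 b2
    cases (decide (s = σ)) <;> cases rt <;> simp [wX, wY, phX, phY, a1, a2, b1, b2] <;> ring

end

end NUSp
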