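import Pool.Agent.NUP1L.LegDefs
import Pool.Agent.NUO.PotG

/-!
# Spectators (half quanta, their partners, ends) as analytic potentials

A half quantum is a pair (type, position), type `true` = X (it meets X quanta by `Leg.Ck` and Y quanta
by `Leg.Dk`).  A spectator group `Grp` is a list of half quanta and a list of constituents (species,
type, position) as in `NUO.Obj`.  Curve variable `ζ`: the quantum of the curve is at `u = l + i ζ`.

* `hqp` pair function of a constituent and a half quantum; `specN` modulus of the factor of a group on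
  a quantum;
* `gp s G`, `gp1 s G` complex potential of the group on species `s`, its derivative;
* `potB_gp`, `exp_gp`, `ext_gp`, `gp_im`.
-/

set_option autoImplicit false

open Complex Set Filter Topology

namespace NUSp

open NUO

noncomputable section


/-! ### words in the blocks -/

/-- `∑ c bk w k` over a word `(k, c)` -/
def wd (L : List (ℤ × ℝ)) (w ζ : ℂ) : ℂ := (L.map fun kc => (kc.2 : ℂ) * bk w kc.1 ζ).sum

/-- derivative of `wd` -/
def wd1 (L : List (ℤ × ℝ)) (w ζ : ℂ) : ℂ := (L.map fun kc => (kc.2 : ℂ) * bk1 w kc.1 ζ).sum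

/-- the half step of the phase of a word: limit of the imaginary part at `+∞` on the line `A` -/
def wph (L : List (ℤ × ℝ)) (w : ℂ) : ℝ := (L.map fun kc => kc.2 * yw w kc.1).sum

/-- charge of a word -/
def wq (L : List (ℤ × ℝ)) : ℝ := (L.map fun kc => kc.2).sum

/-- length of a word -/
def wn (L : List (ℤ × ℝ)) : ℝ := (L.map fun kc => |kc.2|).sum

variable {δ b : ℝ} {w ζ : ℂ}

@[simp] lemma wd_nil (w ζ : ℂ) : wd [] w ζ = 0 := rfl

@[simp] lemma wd_cons (a : ℤ × ℝ) (L : List (ℤ × ℝ)) (w ζ : ℂ) :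
    wd (a :: L) w ζ = (a.2 : ℂ) * bk w a.1 ζ + wd L w ζ := by simp [wd]

@[simp] lemma wph_nil (w : ℂ) : wph [] w = 0 := rfl

@[simp] lemma wph_cons (a : ℤ × ℝ) (L : List (ℤ × ℝ)) (w : ℂ) :
    wph (a :: L) w = a.2 * yw w a.1 + wph L w := by simp [wph]

@[simp] lemma wq_nil : wq [] = 0 := rfl

@[simp] lemma wq_cons (a : ℤ × ℝ) (L : List (ℤ × ℝ)) : wq (a :: L) = a.2 + wq L := by simp [wq]

@[simp] lemma wn_nil : wn [] = 0 := rfl

@[simp] lemma wn_cons (a : ℤ × ℝ) (L : List (ℤ × ℝ)) : wn (a :: L) = |a.2| + wn L := by simp [wn]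

lemma wn_nonneg (L : List (ℤ × ℝ)) : 0 ≤ wn L := by
  induction L with
  | nil => simp
  | cons a L ih => rw [wn_cons]; have := abs_nonneg a.2; linarith

/-- **a word is a potential** -/
theorem potB_wd (hb0 : 0 < b) (hb : b < δ * NUMF.l) (h : Away δ w) (L : List (ℤ × ℝ)) :
    PotB b (wn L * kb δ b) (wq L) w.im (wd L w) (wd1 L w) := by
  have h1 := PotB.listSum hb0 L (κ := fun kc => |kc.2| * kb δ b) (c := fun kc => kc.2 * (1:ℝ))
    (f := fun kc ζ => (kc.2 : ℂ) * bk w kc.1 ζ) (f1 := fun kc ζ => (kc.2 : ℂ) * bk1 w kc.1 ζ)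
    (τ := w.im) fun kc _ => (potB_bk hb0 hb h kc.1).smul kc.2
  have e1 : (L.map fun kc => |kc.2| * kb δ b).sum = wn L * kb δ b := by
    unfold wn
    rw [List.sum_map_mul_right]
  have e2 : (L.map fun kc => kc.2 * (1:ℝ)).sum = wq L := by
    simp [wq]
  rw [e1, e2] at h1
  exact h1

/-- change of the base point by a multiple of `l` -/
lemma yw_shift (w : ℂ) (n k : ℤ) : yw (w + n * NUMF.l) k = yw w (k - n) := by
  have hl := ll_pos
  unfold yw
  congr 2
  have e : (w + n * NUMF.l : ℂ).re = w.re + n * NUMF.l := by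
    rw [Complex.add_re]
    congr 1
    have : ((n : ℂ) * (NUMF.l : ℂ)) = ((n * NUMF.l : ℝ) : ℂ) := by push_cast; ring
    rw [this, Complex.ofReal_re]
  rw [e]
  push_cast
  field_simp
  ring

lemma bk_shift (w : ℂ) (n k : ℤ) (ζ : ℂ) : bk (w + n * NUMF.l) k ζ = bk w (k - n) ζ := by
  unfold bk wz
  rw [yw_shift]
  congr 3
  have : ((n : ℂ) * (NUMF.l : ℂ)) = ((n * NUMF.l : ℝ) : ℂ) := by push_cast; ring
  rw [Complex.add_im, this, Complex.ofReal_im, add_zero]

/-- period `8` -/
lemma yw_add8 (w : ℂ) (k : ℤ) : yw w (k + 8) = yw w k := by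
  unfold yw
  have e : ((3 - k : ℤ) : ℝ) - (-(w.re / NUMF.l)) = (((3 - (k + 8) : ℤ) : ℝ) - (-(w.re / NUMF.l))) + 8 := by
    push_cast
    ring
  rw [e, red_add8]

lemma bk_add8 (w : ℂ) (k : ℤ) (ζ : ℂ) : bk w (k + 8) ζ = bk w k ζ := by
  unfold bk wz
  rw [yw_add8]

lemma Away.shift (h : Away δ w) (n : ℤ) : Away δ (w + n * NUMF.l) := by
  intro m
  have h1 := h (m - n)
  have e : (w + n * NUMF.l : ℂ).re = w.re + n * NUMF.l := by
    rw [Complex.add_re]
    congr 1
    have : ((n : ℂ) * (NUMF.l : ℂ)) = ((n * NUMF.l : ℝ) : ℂ) := by push_cast; ring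
    rw [this, Complex.ofReal_re]
  rw [e]
  have e2 : w.re + n * NUMF.l - m * NUMF.l = w.re - ((m - n : ℤ) : ℝ) * NUMF.l := by push_cast; ring
  rw [e2]
  exact h1

/-- shift of a word -/
def sh (n : ℤ) (L : List (ℤ × ℝ)) : List (ℤ × ℝ) := L.map fun kc => (kc.1 - n, kc.2)

lemma wd_shift (w : ℂ) (n : ℤ) (L : List (ℤ × ℝ)) (ζ : ℂ) : wd L (w + n * NUMF.l) ζ = wd (sh n L) w ζ := by
  unfold wd sh
  rw [List.map_map]
  congr 1
  refine List.map_congr_left fun kc _ => ?_
  simp only [Function.comp_apply]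
  rw [bk_shift]

/-! ### asymptotics -/

lemma re_one_add_exp {w : ℂ} (hw : |w.im| < Real.pi / 2) (h0 : 0 ≤ w.re) :
    0 < (1 + Complex.exp (-2 * w)).re := by
  have e : (1 + Complex.exp (-2 * w)).re = 1 + Real.exp (-2 * w.re) * Real.cos (2 * w.im) := by
    rw [Complex.add_re, Complex.one_re, Complex.exp_re]
    have a1 : (-2 * w).re = -2 * w.re := by simp
    have a2 : (-2 * w).im = -(2 * w.im) := by simp
    rw [a1, a2, Real.cos_neg]
  rw [e]
  obtain ⟨h1, h2⟩ := abs_lt.1 hw
  have h3 : -1 < Real.cos (2 * w.im) := by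
    have h4 : 0 < Real.cos w.im := Real.cos_pos_of_mem_Ioo ⟨by linarith, by linarith⟩
    rw [Real.cos_two_mul]
    nlinarith
  have h4 : Real.exp (-2 * w.re) ≤ 1 := Real.exp_le_one_iff.2 (by linarith)
  have h5 := Real.exp_pos (-2 * w.re)
  rcases le_total 0 (Real.cos (2 * w.im)) with h6 | h6
  · have := mul_nonneg h5.le h6
    linarith
  · nlinarith

lemma log_cosh_eq {w : ℂ} (hw : |w.im| < Real.pi / 2) (h0 : 0 ≤ w.re) :
    Complex.log (Complex.cosh w) = w - Real.log 2 + Complex.log (1 + Complex.exp (-2 * w)) := by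
  set z : ℂ := 1 + Complex.exp (-2 * w) with hz
  have h1 := re_one_add_exp hw h0
  rw [← hz] at h1
  have hz0 : z ≠ 0 := fun h => by rw [h] at h1; simp at h1
  have h2 : |z.arg| < Real.pi / 2 := Complex.abs_arg_lt_pi_div_two_iff.2 (Or.inl h1)
  have h3 : Complex.exp (w - Real.log 2 + Complex.log z) = Complex.cosh w := by
    rw [Complex.exp_add, Complex.exp_sub, Complex.exp_log hz0, ← Complex.ofReal_exp,
      Real.exp_log two_pos, hz, Complex.cosh]
    have e1 : Complex.exp (-w) = Complex.exp w * Complex.exp (-2 * w) := by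
      rw [← Complex.exp_add]; congr 1; ring
    rw [e1]
    push_cast
    ring
  have h4 : (w - Real.log 2 + Complex.log z).im = w.im + z.arg := by
    rw [Complex.add_im, Complex.sub_im, Complex.ofReal_im, sub_zero, Complex.log_im]
  obtain ⟨a1, a2⟩ := abs_lt.1 hw
  obtain ⟨b1, b2⟩ := abs_lt.1 h2
  rw [← h3, Complex.log_exp (by rw [h4]; linarith) (by rw [h4]; linarith)]

lemma norm_log_one_add {w : ℂ} {b : ℝ} (hb : b < Real.pi / 2) (hw : |w.im| ≤ b) (h0 : 0 ≤ w.re) :
    ‖Complex.log (1 + Complex.exp (-2 * w))‖ ≤ 3 / Real.cos b * Real.exp (-2 * |w.re|) := by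
  have hb0 : 0 ≤ b := (abs_nonneg _).trans hw
  have hc := cos_pos_of hb0 hb
  have hwl : |w.im| < Real.pi / 2 := hw.trans_lt hb
  set z : ℂ := 1 + Complex.exp (-2 * w) with hz
  have hre := re_one_add_exp hwl h0
  rw [← hz] at hre
  have hz0 : z ≠ 0 := fun h => by rw [h] at hre; simp at hre
  have hn : 0 < ‖z‖ := norm_pos_iff.2 hz0
  rw [abs_of_nonneg h0]
  set E := Real.exp (-2 * w.re) with hE
  have hE0 : 0 < E := Real.exp_pos _
  have hnE : ‖Complex.exp (-2 * w)‖ = E := by
    rw [Complex.norm_exp]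
    have : (-2 * w).re = -2 * w.re := by simp
    rw [this]
  -- lower bound of the modulus
  have hlow : Real.cos b ≤ ‖z‖ := by
    have h1 := norm_cosh_ge hb hw
    have h2 := exp_half_le_cosh w.re
    rw [abs_of_nonneg h0] at h2
    have h3 : Complex.cosh w = Complex.exp w / 2 * z := by
      rw [hz, Complex.cosh]
      have e1 : Complex.exp (-w) = Complex.exp w * Complex.exp (-2 * w) := by
        rw [← Complex.exp_add]; congr 1; ring
      rw [e1]
      ring
    rw [h3, norm_mul, norm_div, Complex.norm_exp, Complex.norm_ofNat] at h1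
    have h4 := Real.exp_pos w.re
    have h5 : Real.exp w.re / 2 * Real.cos b ≤ Real.exp w.re / 2 * ‖z‖ :=
      (mul_le_mul_of_nonneg_right h2 hc.le).trans h1
    exact le_of_mul_le_mul_left h5 (by positivity)
  have hc1 : Real.cos b ≤ 1 := Real.cos_le_one b
  -- real part
  have hR : |Real.log ‖z‖| ≤ E / Real.cos b := by
    have u1 : ‖z‖ ≤ 1 + E := by
      rw [hz]
      refine (norm_add_le _ _).trans ?_
      rw [norm_one, hnE]
    have u2 : 1 - E ≤ ‖z‖ := by
      have h1 := norm_sub_norm_le (1:ℂ) (-Complex.exp (-2 * w))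
      rw [norm_one, norm_neg, hnE, sub_neg_eq_add, ← hz] at h1
      exact h1
    have v1 := Real.log_le_sub_one_of_pos hn
    have v2 := Real.one_sub_inv_le_log_of_pos hn
    have w1 : E ≤ E / Real.cos b := by
      rw [le_div_iff₀ hc]
      nlinarith
    have w2 : ‖z‖⁻¹ - 1 ≤ E / Real.cos b := by
      have e : ‖z‖⁻¹ - 1 = (1 - ‖z‖) / ‖z‖ := by field_simp
      rw [e]
      calc (1 - ‖z‖) / ‖z‖ ≤ E / ‖z‖ := by gcongr; linarith
        _ ≤ E / Real.cos b := by gcongr
    rw [abs_le]
    constructor <;> linarith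
  -- imaginary part
  have hI : |z.arg| ≤ 2 * (E / Real.cos b) := by
    rw [Complex.arg_of_re_nonneg hre.le]
    have h1 : |z.im / ‖z‖| ≤ E / Real.cos b := by
      rw [abs_div, abs_of_pos hn]
      have h2 : |z.im| ≤ E := by
        have h3 : z.im = (Complex.exp (-2 * w)).im := by
          rw [hz, Complex.add_im, Complex.one_im, zero_add]
        rw [h3, ← hnE]
        exact Complex.abs_im_le_norm _
      calc |z.im| / ‖z‖ ≤ E / ‖z‖ := by gcongr
        _ ≤ E / Real.cos b := by gcongr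
    have hs1 : |z.im / ‖z‖| ≤ 1 := by
      rw [abs_div, abs_of_pos hn, div_le_one hn]
      exact Complex.abs_im_le_norm _
    -- |arcsin s| ≤ (π/2) |s| ≤ 2 |s|
    have h3 : ∀ s : ℝ, 0 ≤ s → s ≤ 1 → Real.arcsin s ≤ 2 * s := by
      intro s s0 s1
      have h4 : Real.arcsin s ≤ Real.pi / 2 := Real.arcsin_le_pi_div_two s
      have h5 : 0 ≤ Real.arcsin s := Real.arcsin_nonneg.2 s0
      have h6 := Real.mul_le_sin h5 h4
      rw [Real.sin_arcsin (by linarith) s1] at h6
      have hp := Real.pi_pos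
      have hp4 := Real.pi_le_four
      have h7 : Real.arcsin s ≤ Real.pi / 2 * s := by
        have : 2 / Real.pi * Real.arcsin s * (Real.pi / 2) ≤ s * (Real.pi / 2) :=
          mul_le_mul_of_nonneg_right h6 (by positivity)
        have e : 2 / Real.pi * Real.arcsin s * (Real.pi / 2) = Real.arcsin s := by
          field_simp
        linarith
      nlinarith
    have h4 : |Real.arcsin (z.im / ‖z‖)| ≤ 2 * |z.im / ‖z‖| := by
      rcases le_total 0 (z.im / ‖z‖) with h5 | h5
      · rw [abs_of_nonneg (Real.arcsin_nonneg.2 h5), abs_of_nonneg h5]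
        exact h3 _ h5 (by rw [abs_of_nonneg h5] at hs1; exact hs1)
      · have h6 := h3 (-(z.im / ‖z‖)) (by linarith) (by rw [abs_of_nonpos h5] at hs1; exact hs1)
        rw [Real.arcsin_neg] at h6
        rw [abs_of_nonpos (Real.arcsin_nonpos.2 h5), abs_of_nonpos h5]
        exact h6
    linarith
  have h1 := Complex.norm_le_abs_re_add_abs_im (Complex.log z)
  rw [Complex.log_re, Complex.log_im] at h1
  calc ‖Complex.log z‖ ≤ E / Real.cos b + 2 * (E / Real.cos b) := by linarith
    _ = 3 / Real.cos b * E := by ring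

/-- **`log cosh w = w - log 2 + O(e^{-2 Re w})`** on the right -/
lemma log_cosh_r {w : ℂ} {b : ℝ} (hb : b < Real.pi / 2) (hw : |w.im| ≤ b) (h0 : 0 ≤ w.re) :
    ‖Complex.log (Complex.cosh w) - (w - Real.log 2)‖ ≤ 3 / Real.cos b * Real.exp (-2 * |w.re|) := by
  rw [log_cosh_eq (hw.trans_lt hb) h0, add_sub_cancel_left]
  exact norm_log_one_add hb hw h0

/-- **`log cosh w = - w - log 2 + O(e^{-2 |Re w|})`** on the left -/
lemma log_cosh_l {w : ℂ} {b : ℝ} (hb : b < Real.pi / 2) (hw : |w.im| ≤ b) (h0 : w.re ≤ 0) :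
    ‖Complex.log (Complex.cosh w) - (-w - Real.log 2)‖ ≤ 3 / Real.cos b * Real.exp (-2 * |w.re|) := by
  have h1 := log_cosh_r (w := -w) hb (by rw [Complex.neg_im, abs_neg]; exact hw)
    (by rw [Complex.neg_re]; linarith)
  rw [Complex.cosh_neg, Complex.neg_re, abs_neg] at h1
  exact h1

/-- asymptotics of a potential at the height `τ`: `f = ± c (z - τ) + a ± i φ + O(e^{-2 |Re z - τ|})` -/
structure Asy (b κ c a φ τ : ℝ) (f : ℂ → ℂ) : Prop where
  ar : ∀ z : ℂ, |z.im| < b → τ ≤ z.re →
    ‖f z - (c * (z - τ) + a + φ * I)‖ ≤ κ * Real.exp (-2 * |z.re - τ|)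
  al : ∀ z : ℂ, |z.im| < b → z.re ≤ τ →
    ‖f z - (-c * (z - τ) + a - φ * I)‖ ≤ κ * Real.exp (-2 * |z.re - τ|)

namespace Asy

variable {κ c a φ τ κ' c' a' φ' : ℝ} {f g : ℂ → ℂ}

theorem mono (h : Asy b κ c a φ τ f) (hk : κ ≤ κ') : Asy b κ' c a φ τ f :=
  ⟨fun z hz hr => (h.ar z hz hr).trans (mul_le_mul_of_nonneg_right hk (Real.exp_pos _).le),
    fun z hz hr => (h.al z hz hr).trans (mul_le_mul_of_nonneg_right hk (Real.exp_pos _).le)⟩

theorem zero (b τ : ℝ) : Asy b 0 0 0 0 τ (fun _ => 0) :=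
  ⟨fun z _ _ => by simp, fun z _ _ => by simp⟩

theorem add (h : Asy b κ c a φ τ f) (h' : Asy b κ' c' a' φ' τ g) :
    Asy b (κ + κ') (c + c') (a + a') (φ + φ') τ (fun z => f z + g z) := by
  refine ⟨fun z hz hr => ?_, fun z hz hr => ?_⟩
  · have e : f z + g z - (((c + c' : ℝ) : ℂ) * (z - τ) + (a + a' : ℝ) + (φ + φ' : ℝ) * I) =
        (f z - (c * (z - τ) + a + φ * I)) + (g z - (c' * (z - τ) + a' + φ' * I)) := by
      push_cast; ring
    rw [e, add_mul]
    exact (norm_add_le _ _).trans (add_le_add (h.ar z hz hr) (h'.ar z hz hr))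
  · have e : f z + g z - (-((c + c' : ℝ) : ℂ) * (z - τ) + (a + a' : ℝ) - (φ + φ' : ℝ) * I) =
        (f z - (-c * (z - τ) + a - φ * I)) + (g z - (-c' * (z - τ) + a' - φ' * I)) := by
      push_cast; ring
    rw [e, add_mul]
    exact (norm_add_le _ _).trans (add_le_add (h.al z hz hr) (h'.al z hz hr))

theorem smul (h : Asy b κ c a φ τ f) (m : ℝ) :
    Asy b (|m| * κ) (m * c) (m * a) (m * φ) τ (fun z => m * f z) := by
  refine ⟨fun z hz hr => ?_, fun z hz hr => ?_⟩
  · have e : (m : ℂ) * f z - (((m * c : ℝ) : ℂ) * (z - τ) + (m * a : ℝ) + (m * φ : ℝ) * I) =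
        m * (f z - (c * (z - τ) + a + φ * I)) := by push_cast; ring
    rw [e, norm_mul, Complex.norm_real, Real.norm_eq_abs, mul_assoc]
    exact mul_le_mul_of_nonneg_left (h.ar z hz hr) (abs_nonneg _)
  · have e : (m : ℂ) * f z - (-((m * c : ℝ) : ℂ) * (z - τ) + (m * a : ℝ) - (m * φ : ℝ) * I) =
        m * (f z - (-c * (z - τ) + a - φ * I)) := by push_cast; ring
    rw [e, norm_mul, Complex.norm_real, Real.norm_eq_abs, mul_assoc]
    exact mul_le_mul_of_nonneg_left (h.al z hz hr) (abs_nonneg _)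

theorem listSum {α : Type*} {b τ : ℝ} (L : List α) {κ c a φ : α → ℝ} {f : α → ℂ → ℂ}
    (h : ∀ x ∈ L, Asy b (κ x) (c x) (a x) (φ x) τ (f x)) :
    Asy b (L.map κ).sum (L.map c).sum (L.map a).sum (L.map φ).sum τ
      (fun z => (L.map fun x => f x z).sum) := by
  induction L with
  | nil => simpa using zero b τ
  | cons a L ih =>
    have h1 := h a (by simp)
    have h2 := ih fun x hx => h x (by simp [hx])
    simpa using h1.add h2

/-- imaginary part on the axis -/
theorem im_r (h : Asy b κ c a φ τ f) (hb : 0 < b) {t : ℝ} (ht : τ ≤ t) :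
    |(f t).im - φ| ≤ κ * Real.exp (-2 * |t - τ|) := by
  have h1 := h.ar (t : ℂ) (by simpa using hb) (by simpa using ht)
  rw [Complex.ofReal_re] at h1
  refine le_trans ?_ h1
  have e : (f t - (c * ((t : ℂ) - τ) + a + φ * I)).im = (f t).im - φ := by
    simp
  rw [← e]
  exact Complex.abs_im_le_norm _

theorem im_l (h : Asy b κ c a φ τ f) (hb : 0 < b) {t : ℝ} (ht : t ≤ τ) :
    |(f t).im + φ| ≤ κ * Real.exp (-2 * |t - τ|) := by
  have h1 := h.al (t : ℂ) (by simpa using hb) (by simpa using ht)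
  rw [Complex.ofReal_re] at h1
  refine le_trans ?_ h1
  have e : (f t - (-c * ((t : ℂ) - τ) + a - φ * I)).im = (f t).im + φ := by
    simp
  rw [← e]
  exact Complex.abs_im_le_norm _

theorem re_le (h : Asy b κ c a φ τ f) (hb : 0 < b) (t : ℝ) :
    |(f t).re - (c * |t - τ| + a)| ≤ κ * Real.exp (-2 * |t - τ|) := by
  rcases le_total τ t with ht | ht
  · have h1 := h.ar (t : ℂ) (by simpa using hb) (by simpa using ht)
    rw [Complex.ofReal_re] at h1
    refine le_trans ?_ h1
    have e : (f t - (c * ((t : ℂ) - τ) + a + φ * I)).re = (f t).re - (c * |t - τ| + a) := by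
      rw [abs_of_nonneg (by linarith)]
      simp
    rw [← e]
    exact Complex.abs_re_le_norm _
  · have h1 := h.al (t : ℂ) (by simpa using hb) (by simpa using ht)
    rw [Complex.ofReal_re] at h1
    refine le_trans ?_ h1
    have e : (f t - (-c * ((t : ℂ) - τ) + a - φ * I)).re = (f t).re - (c * |t - τ| + a) := by
      rw [abs_of_nonpos (by linarith)]
      simp
      ring
    rw [← e]
    exact Complex.abs_re_le_norm _

end Asy

/-- constant of the asymptotics of a block -/
def ka (δ b : ℝ) : ℝ := 3 / Real.sin (δ * NUMF.l - b)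

theorem asy_bk (hb : b < δ * NUMF.l) (h : Away δ w) (k : ℤ) :
    Asy b (ka δ b) 1 (-Real.log 2) (yw w k) w.im (bk w k) := by
  set b' := Real.pi / 2 - (δ * NUMF.l - b) with hb'
  have hb1 : b' < Real.pi / 2 := by rw [hb']; linarith
  have hcos : Real.cos b' = Real.sin (δ * NUMF.l - b) := by rw [hb', Real.cos_pi_div_two_sub]
  have him : ∀ ζ : ℂ, |ζ.im| < b → |(wz w k ζ).im| ≤ b' := by
    intro ζ hζ
    rw [wz_im, hb']
    have h1 := yw_le h k
    have h2 := abs_add_le ζ.im (yw w k)
    linarith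
  refine ⟨fun ζ hζ hr => ?_, fun ζ hζ hr => ?_⟩
  · have h1 := log_cosh_r hb1 (him ζ hζ) (by rw [wz_re]; linarith)
    rw [wz_re, hcos] at h1
    refine le_trans (le_of_eq ?_) h1
    congr 1
    unfold bk wz
    push_cast
    ring
  · have h1 := log_cosh_l hb1 (him ζ hζ) (by rw [wz_re]; linarith)
    rw [wz_re, hcos] at h1
    refine le_trans (le_of_eq ?_) h1
    congr 1
    unfold bk wz
    push_cast
    ring

theorem asy_wd (hb : b < δ * NUMF.l) (h : Away δ w) (L : List (ℤ × ℝ)) :
    Asy b (wn L * ka δ b) (wq L) (-(wq L * Real.log 2)) (wph L w) w.im (wd L w) := by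
  have h1 := Asy.listSum L (κ := fun kc => |kc.2| * ka δ b) (c := fun kc => kc.2 * (1:ℝ))
    (a := fun kc => kc.2 * (-Real.log 2)) (φ := fun kc => kc.2 * yw w kc.1)
    (f := fun kc ζ => (kc.2 : ℂ) * bk w kc.1 ζ)
    (τ := w.im) fun kc _ => (asy_bk hb h kc.1).smul kc.2
  have e1 : (L.map fun kc => |kc.2| * ka δ b).sum = wn L * ka δ b := by
    unfold wn
    rw [List.sum_map_mul_right]
  have e2 : (L.map fun kc => kc.2 * (1:ℝ)).sum = wq L := by
    simp [wq]
  have e3 : (L.map fun kc => kc.2 * (-Real.log 2)).sum = -(wq L * Real.log 2) := by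
    rw [List.sum_map_mul_right]
    unfold wq
    ring
  rw [e1, e2, e3] at h1
  exact h1

/-! ### half quanta -/

/-- pair function of a constituent `a` (species, type, position) and a half quantum `h` (type, position) -/
def hqp (a : Bool × Bool × ℂ) (h : Bool × ℂ) : ℂ :=
  if a.1 = h.1 then
    (if a.2.1 then NUP1.Leg.Ck (h.2 - a.2.2) * NUP1.Leg.Ck (h.2 - a.2.2 + NUP1.l)
      else NUP1.Leg.Ck (h.2 - a.2.2))
  else
    (if a.2.1 then NUP1.Leg.Dk (h.2 - a.2.2) * NUP1.Leg.Dk (h.2 - a.2.2 + NUP1.l)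
      else NUP1.Leg.Dk (h.2 - a.2.2))

/-- the sines of a half quantum: own species?, (shift, power) -/
def hlt : Bool → List (ℤ × ℝ)
  | true => [(0, 1), (-2, 1), (-1, -1)]
  | false => [(4, 1), (3, -1), (-3, -1)]

/-- potential of the half quantum `h` on a quantum of species `s` -/
def hp (s : Bool) (h : Bool × ℂ) (ζ : ℂ) : ℂ := wd (hlt (decide (s = h.1))) h.2 ζ

/-- its derivative -/
def hp1 (s : Bool) (h : Bool × ℂ) (ζ : ℂ) : ℂ := wd1 (hlt (decide (s = h.1))) h.2 ζ

/-- charge of the half quantum as seen by species `s` -/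
def hcq (s : Bool) (h : Bool × ℂ) : ℝ := if s = h.1 then 1 else -1

lemma wq_hlt (s : Bool) (h : Bool × ℂ) : wq (hlt (decide (s = h.1))) = hcq s h := by
  unfold hcq
  by_cases hs : s = h.1
  · simp [hs, hlt]
  · simp [hs, hlt]

lemma wn_hlt (o : Bool) : wn (hlt o) = 3 := by
  cases o <;> norm_num [hlt, wn]

theorem potB_hp (hb0 : 0 < b) (hb : b < δ * NUMF.l) (s : Bool) {h : Bool × ℂ} (hw : Away δ h.2) :
    PotB b (3 * kb δ b) (hcq s h) h.2.im (hp s h) (hp1 s h) := by
  have h1 := potB_wd hb0 hb hw (hlt (decide (s = h.1)))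
  rw [wn_hlt, wq_hlt] at h1
  exact h1

theorem asy_hp (hb : b < δ * NUMF.l) (s : Bool) {h : Bool × ℂ} (hw : Away δ h.2) :
    Asy b (3 * ka δ b) (hcq s h) (-(hcq s h * Real.log 2)) (wph (hlt (decide (s = h.1))) h.2) h.2.im
      (hp s h) := by
  have h1 := asy_wd hb hw (hlt (decide (s = h.1)))
  rw [wn_hlt, wq_hlt] at h1
  exact h1

/-- the sines of `w - u` in terms of the blocks -/
lemma norm_sin_sub {w : ℂ} (h : Away δ w) (k : ℤ) {ζ : ℂ} (hζ : |ζ.im| < δ * NUMF.l) :
    ‖sin (w - (NUMF.l + I * ζ) + k * NUMF.l)‖ = Real.exp (bk w (-k) ζ).re := by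
  rw [exp_bk h (-k) hζ]
  rw [← norm_neg (sin (w - (NUMF.l + I * ζ) + k * NUMF.l)), ← Complex.sin_neg]
  congr 2
  push_cast
  ring

/-- **modulus of the pair function of a half quantum and a quantum of the curve** -/
theorem exp_hp (s : Bool) {h : Bool × ℂ} (hw : Away δ h.2) {ζ : ℂ} (hζ : |ζ.im| < δ * NUMF.l) :
    Real.exp (hp s h ζ).re = ‖hqp (s, false, NUMF.l + I * ζ) h‖ := by
  obtain ⟨σ, w⟩ := h
  simp only at hw
  have hS := fun k : ℤ => norm_sin_sub hw k hζ
  set z : ℂ := w - (NUMF.l + I * ζ) with hz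
  have s0 : ‖sin z‖ = Real.exp (bk w 0 ζ).re := by
    have := hS 0
    simpa using this
  have s1 : ‖sin (z + NUP1.l)‖ = Real.exp (bk w (-1) ζ).re := by
    have := hS 1
    rw [ll_eq]
    simpa using this
  have s2 : ‖sin (z + 2 * NUP1.l)‖ = Real.exp (bk w (-2) ζ).re := by
    have := hS 2
    rw [ll_eq]
    simpa using this
  have s3 : ‖sin (3 * NUP1.l + z)‖ = Real.exp (bk w (-3) ζ).re := by
    have := hS 3
    rw [ll_eq, add_comm]
    simpa using this
  have s4 : ‖cos z‖ = Real.exp (bk w 4 ζ).re := by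
    have := hS (-4)
    rw [neg_neg] at this
    rw [← this]
    have e : z + ((-4 : ℤ) : ℂ) * NUMF.l = z - Real.pi / 2 := by
      unfold NUMF.l
      push_cast
      ring
    rw [e, Complex.sin_sub_pi_div_two, norm_neg]
  have sm3 : ‖sin (3 * NUP1.l - z)‖ = Real.exp (bk w 3 ζ).re := by
    have := hS (-3)
    rw [neg_neg] at this
    rw [← this, ← norm_neg (sin (3 * (NUP1.l : ℂ) - z)), ← Complex.sin_neg]
    congr 2
    rw [ll_eq]
    push_cast
    ring
  have p : ∀ k : ℤ, Real.exp (bk w k ζ).re ≠ 0 := fun k => (Real.exp_pos _).ne'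
  unfold hp hqp
  by_cases hs : s = σ
  · subst hs
    simp only [decide_true, hlt, wd_cons, wd_nil, add_zero, if_true, Bool.false_eq_true, if_false]
    rw [← hz]
    unfold NUP1.Leg.Ck
    rw [norm_div, norm_mul, s0, s1, s2]
    simp only [Complex.add_re, Complex.re_ofReal_mul, one_mul, neg_one_mul, Real.exp_add, Real.exp_neg]
    have := p (-1)
    field_simp
  · have hd : decide (s = σ) = false := by simpa using hs
    simp only [hd, hlt, wd_cons, wd_nil, add_zero, if_neg hs, Bool.false_eq_true, if_false]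
    rw [← hz]
    unfold NUP1.Leg.Dk
    rw [norm_div, norm_mul, s4, s3, sm3]
    simp only [Complex.add_re, Complex.re_ofReal_mul, one_mul, neg_one_mul, Real.exp_add, Real.exp_neg]
    have := p 3
    have := p (-3)
    field_simp

/-! ### groups of spectators -/

/-- a group of spectators: half quanta (type, position), constituents (species, type, position) -/
structure Grp where
  /-- half quanta -/
  hs : List (Bool × ℂ)
  /-- quanta and strings -/
  cs : List (Bool × Bool × ℂ)

namespace Grp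

/-- all members are at distance `≥ δ l` from the multiples of `l`, at height `τ` -/
structure Ok (δ τ : ℝ) (G : Grp) : Prop where
  h1 : ∀ h ∈ G.hs, Away δ h.2
  h2 : ∀ h ∈ G.hs, h.2.im = τ
  c1 : ∀ x ∈ G.cs, Away δ x.2.2
  c2 : ∀ x ∈ G.cs, x.2.2.im = τ

end Grp

/-- modulus of the factor of the group on a constituent -/
def specN (a : Bool × Bool × ℂ) (G : Grp) : ℝ :=
  (G.hs.map fun h => ‖hqp a h‖).prod * (G.cs.map fun x => ‖pp a x‖).prod

/-- potential of the group on a quantum of species `s` -/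
def gp (s : Bool) (G : Grp) (ζ : ℂ) : ℂ :=
  (G.hs.map fun h => hp s h ζ).sum + (G.cs.map fun x => cp s x ζ).sum

/-- its derivative -/
def gp1 (s : Bool) (G : Grp) (ζ : ℂ) : ℂ :=
  (G.hs.map fun h => hp1 s h ζ).sum + (G.cs.map fun x => cp1 s x ζ).sum

/-- charge of the group as seen by species `s` -/
def gq (s : Bool) (G : Grp) : ℝ := (G.hs.map fun h => hcq s h).sum + (G.cs.map fun x => cq s x).sum

/-- half step of the phase of the group on species `s` -/
def gph (s : Bool) (G : Grp) : ℝ :=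
  (G.hs.map fun h => wph (hlt (decide (s = h.1))) h.2).sum +
    (G.cs.map fun x => wph (mlt (decide (s = x.1)) x.2.1) x.2.2).sum

/-- number of members, with weights -/
def gn (G : Grp) : ℝ := 3 * G.hs.length + 6 * G.cs.length

lemma gn_nonneg (G : Grp) : 0 ≤ gn G := by unfold gn; positivity

lemma sum_const_len {α : Type*} (L : List α) (x : ℝ) : (L.map fun _ => x).sum = L.length * x := by
  rw [List.map_const', List.sum_replicate, nsmul_eq_mul]

/-- **the group is a potential** -/
theorem potB_gp (hb0 : 0 < b) (hb : b < δ * NUMF.l) (s : Bool) {G : Grp} {τ : ℝ} (h : G.Ok δ τ) :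
    PotB b (gn G * kb δ b) (gq s G) τ (gp s G) (gp1 s G) := by
  have h1 := PotB.listSum hb0 G.hs (κ := fun _ => 3 * kb δ b) (c := fun x => hcq s x)
    (f := fun x ζ => hp s x ζ) (f1 := fun x ζ => hp1 s x ζ) (τ := τ)
    fun x hx => by
      have := potB_hp hb0 hb s (h.h1 x hx)
      rwa [h.h2 x hx] at this
  have h2 := PotB.listSum hb0 G.cs (κ := fun _ => 6 * kb δ b) (c := fun x => cq s x)
    (f := fun x ζ => cp s x ζ) (f1 := fun x ζ => cp1 s x ζ) (τ := τ)
    fun x hx => by
      have := potB_cp hb0 hb s (h.c1 x hx)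
      rwa [h.c2 x hx] at this
  have h3 := h1.add h2
  rw [sum_const_len, sum_const_len] at h3
  have e : (G.hs.length : ℝ) * (3 * kb δ b) + G.cs.length * (6 * kb δ b) = gn G * kb δ b := by
    unfold gn
    ring
  rw [e] at h3
  exact h3

lemma wn_mlt (o ty : Bool) : wn (mlt o ty) ≤ 6 := by
  cases o <;> cases ty <;> norm_num [mlt, wn]

lemma wq_mlt (s : Bool) (x : Bool × Bool × ℂ) : wq (mlt (decide (s = x.1)) x.2.1) = cq s x := by
  have h1 := mlt_sum (decide (s = x.1)) x.2.1
  unfold wq cq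
  simp only [mul_one] at h1
  rw [h1]
  simp

lemma ka_nonneg (hb : b < δ * NUMF.l) (hδ : δ ≤ 1) (hb0 : 0 < b) : 0 ≤ ka δ b := by
  unfold ka
  have hl := ll_pos
  have : 0 < Real.sin (δ * NUMF.l - b) := by
    refine Real.sin_pos_of_pos_of_lt_pi (by linarith) ?_
    have h1 : δ * NUMF.l ≤ 1 * NUMF.l := mul_le_mul_of_nonneg_right hδ hl.le
    have h2 := four_l
    have := Real.pi_pos
    linarith
  positivity

/-- **asymptotics of the potential of a group** -/
theorem asy_gp (hb0 : 0 < b) (hb : b < δ * NUMF.l) (hδ : δ ≤ 1) (s : Bool) {G : Grp} {τ : ℝ}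
    (h : G.Ok δ τ) :
    Asy b (gn G * ka δ b) (gq s G) (-(gq s G * Real.log 2)) (gph s G) τ (gp s G) := by
  have hk := ka_nonneg hb hδ hb0
  have h1 := Asy.listSum (b := b) (τ := τ) G.hs (κ := fun _ => 3 * ka δ b) (c := fun x => hcq s x)
    (a := fun x => hcq s x * (-Real.log 2)) (φ := fun x => wph (hlt (decide (s = x.1))) x.2)
    (f := fun x ζ => hp s x ζ)
    fun x hx => by
      have := asy_hp hb s (h.h1 x hx)
      rw [h.h2 x hx] at this
      have e : -(hcq s x * Real.log 2) = hcq s x * (-Real.log 2) := by ring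
      rwa [e] at this
  have h2 := Asy.listSum (b := b) (τ := τ) G.cs (κ := fun _ => 6 * ka δ b) (c := fun x => cq s x)
    (a := fun x => cq s x * (-Real.log 2))
    (φ := fun x => wph (mlt (decide (s = x.1)) x.2.1) x.2.2)
    (f := fun x ζ => cp s x ζ)
    fun x hx => by
      have := asy_wd hb (h.c1 x hx) (mlt (decide (s = x.1)) x.2.1)
      rw [h.c2 x hx, wq_mlt] at this
      have e : -(cq s x * Real.log 2) = cq s x * (-Real.log 2) := by ring
      rw [e] at this
      exact this.mono (mul_le_mul_of_nonneg_right (wn_mlt _ _) hk)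
  have h3 := h1.add h2
  rw [sum_const_len, sum_const_len, List.sum_map_mul_right, List.sum_map_mul_right] at h3
  have e : (G.hs.length : ℝ) * (3 * ka δ b) + G.cs.length * (6 * ka δ b) = gn G * ka δ b := by
    unfold gn
    ring
  have e2 : (G.hs.map fun x => hcq s x).sum * -Real.log 2 + (G.cs.map fun x => cq s x).sum * -Real.log 2 =
      -(gq s G * Real.log 2) := by
    unfold gq
    ring
  rw [e, e2] at h3
  exact h3

/-- **exactness**: modulus of the factor of the group on a quantum of the curve -/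
theorem exp_gp (s : Bool) {G : Grp} {τ : ℝ} (h : G.Ok δ τ) {ζ : ℂ} (hζ : |ζ.im| < δ * NUMF.l) :
    Real.exp (gp s G ζ).re = specN (s, false, NUMF.l + I * ζ) G := by
  have k1 : ∀ L : List (Bool × ℂ), (∀ x ∈ L, Away δ x.2) →
      (L.map fun x => ‖hqp (s, false, (NUMF.l + I * ζ : ℂ)) x‖).prod =
        Real.exp ((L.map fun x => hp s x ζ).sum).re := by
    intro L hL
    induction L with
    | nil => simp
    | cons a L ih =>
      rw [List.map_cons, List.prod_cons, List.map_cons, List.sum_cons, Complex.add_re, Real.exp_add,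
        ih fun x hx => hL x (by simp [hx]), exp_hp s (hL a (by simp)) hζ]
  have k2 : ∀ L : List (Bool × Bool × ℂ), (∀ x ∈ L, Away δ x.2.2) →
      (L.map fun x => ‖pp (s, false, (NUMF.l + I * ζ : ℂ)) x‖).prod =
        Real.exp ((L.map fun x => cp s x ζ).sum).re := by
    intro L hL
    induction L with
    | nil => simp
    | cons a L ih =>
      rw [List.map_cons, List.prod_cons, List.map_cons, List.sum_cons, Complex.add_re, Real.exp_add,
        ih fun x hx => hL x (by simp [hx]), exp_cp s (hL a (by simp)) hζ]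
  unfold specN gp
  rw [k1 _ h.h1, k2 _ h.c1, Complex.add_re, Real.exp_add]

/-- exactness on the curve `u = l - η + i t` -/
theorem exp_gp_vl (s : Bool) {G : Grp} {τ : ℝ} (h : G.Ok δ τ) {η : ℝ → ℝ} {t : ℝ}
    (hη : |η t| < δ * NUMF.l) : specN (s, false, NUP1.vl (NUP1.l - η t) t) G =
      Real.exp (gp s G (t + (η t : ℂ) * I)).re := by
  rw [vl_eq]
  exact (exp_gp s h (by simpa using hη)).symm

/-- the group is neutral: charges on the two species are opposite -/
lemma gq_neutral (G : Grp) : gq true G + gq false G = 0 := by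
  unfold gq
  have h1 : ∀ L : List (Bool × ℂ), (L.map fun h => hcq true h).sum + (L.map fun h => hcq false h).sum = 0 := by
    intro L
    induction L with
    | nil => simp
    | cons a L ih =>
      rw [List.map_cons, List.sum_cons, List.map_cons, List.sum_cons]
      have : hcq true a + hcq false a = 0 := by
        unfold hcq
        rcases a with ⟨σ, w⟩
        cases σ <;> simp
      linarith
  have h2 : ∀ L : List (Bool × Bool × ℂ), (L.map fun h => cq true h).sum + (L.map fun h => cq false h).sum = 0 := by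
    intro L
    induction L with
    | nil => simp
    | cons a L ih =>
      rw [List.map_cons, List.sum_cons, List.map_cons, List.sum_cons]
      have : cq true a + cq false a = 0 := by
        unfold cq
        rcases a with ⟨σ, ty, w⟩
        cases σ <;> cases ty <;> simp
      linarith
  have := h1 G.hs
  have := h2 G.cs
  linarith

/-! ### the class `Ext` of `NUAct` -/

/-- a potential is admissible in the action identity -/
theorem ext_of_potB {κ c τ : ℝ} {f f1 : ℂ → ℂ} (h : PotB b κ c τ f f1) {b' : ℝ} (hb' : b' < b) :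
    NUAct.Ext b' f := by
  have hk := h.κ0
  refine NUAct.Ext_of_lin (K := κ * (1 + |τ|)) (fun z hz => (h.hd z (by linarith)).differentiableAt)
    fun z hz => ?_
  refine (h.val z (by linarith)).trans ?_
  rw [mul_assoc]
  refine mul_le_mul_of_nonneg_left ?_ hk
  have h1 := abs_sub z.re τ
  have h2 := abs_nonneg z.re
  have h3 := abs_nonneg τ
  nlinarith

theorem ext_gp (hb0 : 0 < b) (hb : b < δ * NUMF.l) (s : Bool) {G : Grp} {τ : ℝ} (h : G.Ok δ τ) {b' : ℝ}
    (hb' : b' < b) : NUAct.Ext b' (gp s G) := ext_of_potB (potB_gp hb0 hb s h) hb'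

/-- the imaginary part on the axis has an exponentially decaying derivative -/
theorem im_deriv {κ c τ : ℝ} {f f1 : ℂ → ℂ} (h : PotB b κ c τ f f1) (t : ℝ) :
    HasDerivAt (fun t : ℝ => (f t).im) (f1 t).im t ∧ |(f1 t).im| ≤ κ * Real.exp (-2 * |t - τ|) := by
  have hb0 : |(t : ℂ).im| < b := by simpa using h.b0
  constructor
  · have h1 := (h.hd (t : ℂ) hb0).comp_ofReal
    exact Complex.imCLM.hasFDerivAt.comp_hasDerivAt t h1
  · rcases le_total τ t with ht | ht
    · have h1 := h.tr (t : ℂ) hb0 (by simpa using ht)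
      rw [Complex.ofReal_re] at h1
      refine le_trans ?_ h1
      have e : (f1 t - c).im = (f1 t).im := by simp
      rw [← e]
      exact Complex.abs_im_le_norm _
    · have h1 := h.tl (t : ℂ) hb0 (by simpa using ht)
      rw [Complex.ofReal_re] at h1
      refine le_trans ?_ h1
      have e : (f1 t + c).im = (f1 t).im := by simp
      rw [← e]
      exact Complex.abs_im_le_norm _

end

end NUSp
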